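import Mathlib

set_option autoImplicit false

open Matrix

namespace Pool.Agent.H801R3.SB

theorem cb_aux {m : ℕ} {ι : Type*} [Fintype ι] [DecidableEq ι] (P : Matrix (Fin m) ι ℝ)
    (Q : Matrix ι (Fin m) ℝ) :
    (P * Q).det = ∑ a : Fin m → ι, (P.submatrix id a).det * ∏ i, Q (a i) i := by
  rw [det_apply']
  have h1 : ∀ σ : Equiv.Perm (Fin m), ∏ i, (P * Q) (σ i) i =
      ∑ a : Fin m → ι, (∏ i, P (σ i) (a i)) * ∏ i, Q (a i) i := by
    intro σ
    simp only [Matrix.mul_apply]
    rw [Finset.prod_univ_sum, Fintype.piFinset_univ]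
    apply Finset.sum_congr rfl
    intro a _
    rw [Finset.prod_mul_distrib]
  simp only [h1, Finset.mul_sum]
  rw [Finset.sum_comm]
  apply Finset.sum_congr rfl
  intro a _
  rw [det_apply', Finset.sum_mul]
  apply Finset.sum_congr rfl
  intro σ _
  simp only [submatrix_apply, id]
  ring

/-- Cauchy-Binet with ordered tuples. -/
theorem cauchyBinet {m : ℕ} {ι : Type*} [Fintype ι] [DecidableEq ι] (P : Matrix (Fin m) ι ℝ)
    (Q : Matrix ι (Fin m) ℝ) :
    (P * Q).det = (m.factorial : ℝ)⁻¹ *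
      ∑ a : Fin m → ι, (P.submatrix id a).det * (Q.submatrix a id).det := by
  have h1 : ∀ τ : Equiv.Perm (Fin m), (P * Q).det =
      ∑ a : Fin m → ι, (P.submatrix id a).det *
        (((Equiv.Perm.sign τ : ℤ) : ℝ) * ∏ i, Q (a (τ i)) i) := by
    intro τ
    rw [cb_aux, ← Equiv.sum_comp (Equiv.arrowCongr τ.symm (Equiv.refl ι))]
    apply Finset.sum_congr rfl
    intro a _
    have e : (Equiv.arrowCongr τ.symm (Equiv.refl ι)) a = a ∘ τ := by
      ext i
      simp [Equiv.arrowCongr]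
    rw [e]
    have e2 : P.submatrix id (a ∘ τ) = (P.submatrix id a).submatrix id τ := rfl
    rw [e2, Matrix.det_permute']
    simp only [Function.comp_apply]
    ring
  have h2 : (m.factorial : ℝ) * (P * Q).det =
      ∑ a : Fin m → ι, (P.submatrix id a).det * (Q.submatrix a id).det := by
    calc (m.factorial : ℝ) * (P * Q).det = ∑ τ : Equiv.Perm (Fin m), (P * Q).det := by
          rw [Finset.sum_const, Finset.card_univ, Fintype.card_perm, Fintype.card_fin, nsmul_eq_mul]
      _ = ∑ τ : Equiv.Perm (Fin m), ∑ a : Fin m → ι, (P.submatrix id a).det *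
        (((Equiv.Perm.sign τ : ℤ) : ℝ) * ∏ i, Q (a (τ i)) i) :=
          Finset.sum_congr rfl (fun τ _ => h1 τ)
      _ = _ := by
          rw [Finset.sum_comm]
          apply Finset.sum_congr rfl
          intro a _
          rw [← Finset.mul_sum, det_apply' (Q.submatrix a id)]
          rfl
  have h3 : (m.factorial : ℝ) ≠ 0 := by positivity
  rw [← h2]
  field_simp

/-- The row matrix of a tuple of indices. -/
def Vm {n d : ℕ} (v : Fin n → Fin d → ℝ) (a : Fin d → Fin n) : Matrix (Fin d) (Fin d) ℝ :=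
  Matrix.of (fun k => v (a k))

/-- The weighted Gram type matrix. -/
def Qs {n d : ℕ} (v : Fin n → Fin d → ℝ) (s : Fin n → ℝ) : Matrix (Fin d) (Fin d) ℝ :=
  Matrix.of (fun k l => ∑ i, s i * v i k * v i l)

theorem det_Qs {n d : ℕ} (v : Fin n → Fin d → ℝ) (s : Fin n → ℝ) :
    (Qs v s).det = (d.factorial : ℝ)⁻¹ * ∑ a : Fin d → Fin n, (∏ k, s (a k)) * (Vm v a).det ^ 2 := by
  have h : Qs v s = (Matrix.of (fun k i => s i * v i k) : Matrix (Fin d) (Fin n) ℝ) *
      (Matrix.of (fun i k => v i k) : Matrix (Fin n) (Fin d) ℝ) := by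
    ext k l
    simp [Qs, Matrix.mul_apply]
  rw [h, cauchyBinet]
  congr 1
  apply Finset.sum_congr rfl
  intro a _
  have h1 : ((Matrix.of (fun k i => s i * v i k) : Matrix (Fin d) (Fin n) ℝ).submatrix id a)
      = (Matrix.of (fun k l => s (a l) * (Vm v a)ᵀ k l)) := by
    ext k l
    simp [Vm]
  have h2 : ((Matrix.of (fun i k => v i k) : Matrix (Fin n) (Fin d) ℝ).submatrix a id) = Vm v a := by
    ext k l
    simp [Vm]
  rw [h1, h2]
  have h3 := Matrix.det_mul_row (fun l => s (a l)) ((Vm v a)ᵀ)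
  rw [h3, Matrix.det_transpose]
  ring

end Pool.Agent.H801R3.SB
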