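import Mathlib

set_option autoImplicit false

open MeasureTheory Filter Topology
open scoped ENNReal

namespace Pool.Agent.H801R3.SB

/-- The logistic density (real valued). -/
noncomputable def lr (t : ℝ) : ℝ := 1 / (2 * Real.cosh t ^ 2)

/-- The logistic density. -/
noncomputable def lf (t : ℝ) : ℝ≥0∞ := ENNReal.ofReal (lr t)

/-- The logistic distribution function. -/
noncomputable def lF (t : ℝ) : ℝ := Real.exp t / (2 * Real.cosh t)

lemma lr_nonneg (t : ℝ) : 0 ≤ lr t := by
  unfold lr; positivity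

lemma lr_continuous : Continuous lr := by
  unfold lr
  apply Continuous.div continuous_const
  · exact continuous_const.mul (Real.continuous_cosh.pow 2)
  · intro t
    have := Real.cosh_pos t
    positivity

lemma measurable_lf : Measurable lf := lr_continuous.measurable.ennreal_ofReal

lemma lF_eq (t : ℝ) : lF t = 1 / (1 + Real.exp (-(2 * t))) := by
  unfold lF
  rw [Real.cosh_eq]
  have h1 : Real.exp (-(2 * t)) = Real.exp (-t) * Real.exp (-t) := by
    rw [← Real.exp_add]; ring_nf
  have h2 : Real.exp t * Real.exp (-t) = 1 := by rw [← Real.exp_add]; simp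
  have := Real.exp_pos t
  have := Real.exp_pos (-t)
  rw [h1, div_eq_div_iff (by positivity) (by positivity)]
  linear_combination (-(Real.exp (-t))) * h2 + 2 * Real.exp (-t) * h2

lemma lF_deriv (t : ℝ) : HasDerivAt lF (lr t) t := by
  have h1 : HasDerivAt (fun t => 2 * Real.cosh t) (2 * Real.sinh t) t :=
    (Real.hasDerivAt_cosh t).const_mul 2
  have hc := Real.cosh_pos t
  have h := (Real.hasDerivAt_exp t).div h1 (by positivity)
  have h3 : Real.exp t * (Real.cosh t - Real.sinh t) = 1 := by
    rw [Real.cosh_sub_sinh, ← Real.exp_add]; simp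
  refine h.congr_deriv ?_
  unfold lr
  rw [div_eq_div_iff (by positivity) (by positivity)]
  linear_combination (4 * Real.cosh t ^ 2) * h3

lemma lF_tendsto : Tendsto lF atTop (𝓝 1) := by
  have h : lF = fun t => 1 / (1 + Real.exp (-(2 * t))) := by funext t; exact lF_eq t
  rw [h]
  have h1 : Tendsto (fun t : ℝ => Real.exp (-(2 * t))) atTop (𝓝 0) := by
    apply Real.tendsto_exp_atBot.comp
    apply tendsto_neg_atTop_atBot.comp
    exact tendsto_id.const_mul_atTop (by norm_num)
  have h2 : Tendsto (fun t : ℝ => 1 / (1 + Real.exp (-(2 * t)))) atTop (𝓝 (1 / (1 + 0))) :=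
    Tendsto.div tendsto_const_nhds (tendsto_const_nhds.add h1) (by norm_num)
  simpa using h2

lemma one_sub_lF (t : ℝ) : 1 - lF t = lF (-t) := by
  unfold lF
  rw [Real.cosh_neg]
  have hc := Real.cosh_pos t
  have h : Real.exp t + Real.exp (-t) = 2 * Real.cosh t := by rw [Real.cosh_eq]; ring
  field_simp
  linear_combination (-1 : ℝ) * h

lemma lF_nonneg (t : ℝ) : 0 ≤ lF t := by
  unfold lF
  have := Real.cosh_pos t
  positivity

lemma lf_Ioi (t : ℝ) : ∫⁻ c in Set.Ioi t, lf c = ENNReal.ofReal (lF (-t)) := by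
  have hint : IntegrableOn lr (Set.Ioi t) :=
    integrableOn_Ioi_deriv_of_nonneg' (fun x _ => lF_deriv x) (fun x _ => lr_nonneg x) lF_tendsto
  unfold lf
  rw [← ofReal_integral_eq_lintegral_ofReal hint (Eventually.of_forall lr_nonneg),
    integral_Ioi_of_hasDerivAt_of_nonneg' (fun x _ => lF_deriv x) (fun x _ => lr_nonneg x)
      lF_tendsto, one_sub_lF]

lemma lf_neg (t : ℝ) : lf (-t) = lf t := by
  unfold lf lr; rw [Real.cosh_neg]

lemma lf_Iio (t : ℝ) : ∫⁻ c in Set.Iio t, lf c = ENNReal.ofReal (lF t) := by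
  have h := lf_Ioi (-t)
  rw [neg_neg] at h
  rw [← h]
  have hmp : MeasurePreserving (Neg.neg : ℝ → ℝ) volume volume := Measure.measurePreserving_neg volume
  have h2 := hmp.setLIntegral_comp_preimage (s := Set.Ioi (-t)) measurableSet_Ioi measurable_lf
  rw [← h2]
  have h3 : (Neg.neg : ℝ → ℝ) ⁻¹' Set.Ioi (-t) = Set.Iio t := by
    ext x; simp
  rw [h3]
  apply lintegral_congr
  intro c
  exact (lf_neg c).symm

lemma lf_total : ∫⁻ c, lf c = 1 := by
  rw [← lintegral_add_compl lf (measurableSet_Ioi (a := (0 : ℝ))), Set.compl_Ioi, lf_Ioi,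
    setLIntegral_congr (Iio_ae_eq_Iic (a := (0 : ℝ))).symm, lf_Iio,
    ← ENNReal.ofReal_add (lF_nonneg _) (lF_nonneg _)]
  have : lF (-0) + lF 0 = 1 := by unfold lF; norm_num
  rw [this]; simp

end Pool.Agent.H801R3.SB
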