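import Mathlib
import Pool.Agent.H801R3.SB.CB
import Pool.Agent.H801R3.SB.Logistic

set_option autoImplicit false

open MeasureTheory Filter Topology Matrix
open scoped ENNReal

namespace Pool.Agent.H801R3.SB

theorem lintegral_fin_prod {n : ℕ} (μ : Fin n → Measure ℝ)
    [∀ i, SigmaFinite (μ i)] (f : Fin n → ℝ → ℝ≥0∞) (hf : ∀ i, Measurable (f i)) :
    ∫⁻ x : Fin n → ℝ, ∏ i, f i (x i) ∂(Measure.pi μ) = ∏ i, ∫⁻ x, f i x ∂(μ i) := by
  induction n with
  | zero => simp
  | succ n n_ih =>
      calc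
        _ = ∫⁻ x : ℝ × (Fin n → ℝ),
            f 0 x.1 * ∏ i : Fin n, f (Fin.succ i) (x.2 i)
            ∂((μ 0).prod (Measure.pi (fun i ↦ μ i.succ))) := by
          rw [← ((measurePreserving_piFinSuccAbove μ 0).symm).lintegral_comp_emb
            (MeasurableEquiv.measurableEmbedding _)]
          simp_rw [MeasurableEquiv.piFinSuccAbove_symm_apply, Fin.insertNthEquiv,
            Fin.prod_univ_succ, Fin.insertNth_zero, Equiv.coe_fn_mk, Fin.cons_succ,
            Fin.zero_succAbove, cast_eq, Fin.cons_zero]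
        _ = (∫⁻ x, f 0 x ∂μ 0)
            * ∏ i : Fin n, ∫⁻ (x : ℝ), f (Fin.succ i) x ∂(μ i.succ) := by
          rw [← n_ih (fun i => μ i.succ) (fun i => f i.succ) (fun i => hf _)]
          exact lintegral_prod_mul (hf 0).aemeasurable (Finset.measurable_prod _ (fun i _ =>
            (hf _).comp (measurable_pi_apply i))).aemeasurable
        _ = ∏ i, ∫⁻ x, f i x ∂(μ i) := by rw [Fin.prod_univ_succ]

/-- Product formula for lower integrals over a finite power of the line. -/
theorem lintegral_fintype_prod {ι : Type*} [Fintype ι] (f : ι → ℝ → ℝ≥0∞)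
    (hf : ∀ i, Measurable (f i)) :
    ∫⁻ x : ι → ℝ, ∏ i, f i (x i) = ∏ i, ∫⁻ x, f i x := by
  rw [volume_pi]
  let e := (Fintype.equivFin ι).symm
  rw [← (measurePreserving_piCongrLeft _ e).lintegral_comp_emb
    (MeasurableEquiv.measurableEmbedding _)]
  simp_rw [← e.prod_comp, MeasurableEquiv.coe_piCongrLeft, Equiv.piCongrLeft_apply_apply]
  exact lintegral_fin_prod (fun i => volume) (fun i => f (e i)) (fun i => hf _)

/-- Splitting of the coordinates along an injective tuple. -/
theorem mp_split {n d : ℕ} (a : Fin d → Fin n) (ha : Function.Injective a) :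
    MeasurePreserving (fun c : Fin n → ℝ =>
      ((fun k => c (a k)), (fun i : {i : Fin n // ¬ ∃ k, a k = i} => c i)))
      volume (volume.prod volume) := by
  have h1 := volume_preserving_piEquivPiSubtypeProd (fun _ : Fin n => ℝ) (fun i => ∃ k, a k = i)
  let e : Fin d ≃ {i : Fin n // ∃ k, a k = i} := Equiv.ofInjective a ha
  have h2 := (volume_measurePreserving_piCongrLeft (fun _ : {i : Fin n // ∃ k, a k = i} => ℝ) e).symm
  have h1' : MeasurePreserving (MeasurableEquiv.piEquivPiSubtypeProd (fun _ : Fin n => ℝ)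
      (fun i => ∃ k, a k = i)) volume
      ((volume : Measure ({i : Fin n // ∃ k, a k = i} → ℝ)).prod
        (volume : Measure ({i : Fin n // ¬ ∃ k, a k = i} → ℝ))) := by
    rw [← Measure.volume_eq_prod]
    exact h1
  have h3 := (h2.prod (MeasurePreserving.id
    (volume : Measure ({i : Fin n // ¬ ∃ k, a k = i} → ℝ)))).comp h1'
  exact h3

/-- Linear change of variables. -/
theorem lintegral_linear {d : ℕ} (M : Matrix (Fin d) (Fin d) ℝ) (hM : M.det ≠ 0)
    (G : (Fin d → ℝ) → ℝ≥0∞) (hG : Measurable G) :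
    ∫⁻ z, G z = ENNReal.ofReal |M.det| * ∫⁻ y, G (M *ᵥ y) := by
  have h := Real.map_matrix_volume_pi_eq_smul_volume_pi hM
  have hmeas : Measurable (Matrix.toLin' M) := by
    exact (LinearMap.continuous_of_finiteDimensional (Matrix.toLin' M)).measurable
  have h1 : ∫⁻ y, G (M *ᵥ y) = ENNReal.ofReal |(M.det)⁻¹| * ∫⁻ z, G z := by
    have h2 : ∫⁻ y, G (Matrix.toLin' M y) = ∫⁻ z, G z ∂(Measure.map (Matrix.toLin' M) volume) :=
      (lintegral_map hG hmeas).symm
    rw [h, lintegral_smul_measure] at h2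
    simpa using h2
  rw [h1, ← mul_assoc, ← ENNReal.ofReal_mul (abs_nonneg _), ← abs_mul, mul_inv_cancel₀ hM]
  simp

end Pool.Agent.H801R3.SB
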