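import Mathlib
import Pool.Agent.H801R3.SB.Split

set_option autoImplicit false

open MeasureTheory Filter Topology Matrix
open scoped ENNReal

namespace Pool.Agent.H801R3.SB

variable {n d : ℕ}

/-- index type outside of a tuple -/
abbrev Off (a : Fin d → Fin n) : Type := {i : Fin n // ¬ ∃ k, a k = i}

lemma prod_split {M : Type*} [CommMonoid M] (a : Fin d → Fin n) (ha : Function.Injective a)
    (f : Fin n → M) : ∏ i, f i = (∏ k, f (a k)) * ∏ i : Off a, f i := by
  rw [← Fintype.prod_subtype_mul_prod_subtype (fun i => ∃ k, a k = i) f]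
  congr 1
  let e : Fin d ≃ {i : Fin n // ∃ k, a k = i} := Equiv.ofInjective a ha
  rw [← e.prod_comp]
  rfl

lemma sum_split {M : Type*} [AddCommMonoid M] (a : Fin d → Fin n) (ha : Function.Injective a)
    (f : Fin n → M) : ∑ i, f i = (∑ k, f (a k)) + ∑ i : Off a, f i := by
  rw [← Fintype.sum_subtype_add_sum_subtype (fun i => ∃ k, a k = i) f]
  congr 1
  let e : Fin d ≃ {i : Fin n // ∃ k, a k = i} := Equiv.ofInjective a ha
  rw [← e.sum_comp]
  rfl

/-- The solution of the tie equations. -/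
noncomputable def sol (v : Fin n → Fin d → ℝ) (a : Fin d → Fin n) (z : Fin d → ℝ) : Fin d → ℝ :=
  (Vm v a)⁻¹ *ᵥ z

lemma mulVec_Vm (v : Fin n → Fin d → ℝ) (a : Fin d → Fin n) (y : Fin d → ℝ) (k : Fin d) :
    (Vm v a *ᵥ y) k = y ⬝ᵥ v (a k) := by
  simp only [Vm, mulVec, Matrix.of_apply]
  exact dotProduct_comm _ _

lemma sol_mulVec (v : Fin n → Fin d → ℝ) (a : Fin d → Fin n) (ha : (Vm v a).det ≠ 0)
    (y : Fin d → ℝ) : sol v a (Vm v a *ᵥ y) = y := by
  unfold sol
  rw [mulVec_mulVec, Matrix.nonsing_inv_mul _ (isUnit_iff_ne_zero.mpr ha), one_mulVec]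

lemma injective_of_det (v : Fin n → Fin d → ℝ) (a : Fin d → Fin n) (ha : (Vm v a).det ≠ 0) :
    Function.Injective a := by
  intro i j hij
  by_contra hne
  apply ha
  apply Matrix.det_zero_of_row_eq hne
  change v (a i) = v (a j)
  rw [hij]

lemma sol_measurable (v : Fin n → Fin d → ℝ) (a : Fin d → Fin n) (w : Fin d → ℝ) :
    Measurable (fun z => sol v a z ⬝ᵥ w) := by
  have h : Continuous (fun z => sol v a z ⬝ᵥ w) := by
    unfold sol
    apply Continuous.dotProduct _ continuous_const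
    exact Continuous.matrix_mulVec continuous_const continuous_id
  exact h.measurable

/-- one-sided density -/
noncomputable def hh (η t c : ℝ) : ℝ≥0∞ := if 0 < η * (t - c) then lf c else 0

lemma measurable_hh (η : ℝ) : Measurable (fun p : ℝ × ℝ => hh η p.1 p.2) := by
  unfold hh
  apply Measurable.ite
  · apply measurableSet_lt measurable_const
    fun_prop
  · exact measurable_lf.comp measurable_snd
  · exact measurable_const

lemma lintegral_hh (η t : ℝ) (hη : η = 1 ∨ η = -1) :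
    ∫⁻ c, hh η t c = ENNReal.ofReal (lF (η * t)) := by
  rcases hη with rfl | rfl
  · have h : (fun c => hh 1 t c) = (Set.Iio t).indicator lf := by
      funext c
      unfold hh
      by_cases hc : c < t
      · rw [if_pos (by linarith), Set.indicator_of_mem (by exact hc)]
      · rw [if_neg (by linarith), Set.indicator_of_notMem (by exact hc)]
    rw [h, lintegral_indicator measurableSet_Iio, lf_Iio, one_mul]
  · have h : (fun c => hh (-1) t c) = (Set.Ioi t).indicator lf := by
      funext c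
      unfold hh
      by_cases hc : t < c
      · rw [if_pos (by linarith), Set.indicator_of_mem (by exact hc)]
      · rw [if_neg (by linarith), Set.indicator_of_notMem (by exact hc)]
    rw [h, lintegral_indicator measurableSet_Ioi, lf_Ioi, neg_one_mul]

/-- The integrand attached to a tuple and a sign pattern. -/
noncomputable def integ (v : Fin n → Fin d → ℝ) (a : Fin d → Fin n) (η : Fin n → ℝ)
    (c : Fin n → ℝ) : ℝ≥0∞ :=
  (∏ k, lf (c (a k))) * ∏ i : Off a, hh (η i) (sol v a (fun k => c (a k)) ⬝ᵥ v i) (c i)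

lemma measurable_integ_aux (v : Fin n → Fin d → ℝ) (a : Fin d → Fin n) (η : Fin n → ℝ) :
    Measurable (fun p : (Fin d → ℝ) × (Off a → ℝ) =>
      (∏ k, lf (p.1 k)) * ∏ i : Off a, hh (η i) (sol v a p.1 ⬝ᵥ v i) (p.2 i)) := by
  apply Measurable.mul
  · apply Finset.measurable_prod
    intro k _
    exact measurable_lf.comp ((measurable_pi_apply k).comp measurable_fst)
  · apply Finset.measurable_prod
    intro i _
    have h1 : Measurable (fun p : (Fin d → ℝ) × (Off a → ℝ) => (sol v a p.1 ⬝ᵥ v i, p.2 i)) :=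
      ((sol_measurable v a (v i)).comp measurable_fst).prodMk
        ((measurable_pi_apply i).comp measurable_snd)
    exact (measurable_hh (η i)).comp h1

lemma measurable_integ (v : Fin n → Fin d → ℝ) (a : Fin d → Fin n) (η : Fin n → ℝ) :
    Measurable (integ v a η) := by
  unfold integ
  apply Measurable.mul
  · apply Finset.measurable_prod
    intro k _
    exact measurable_lf.comp (measurable_pi_apply (a k))
  · apply Finset.measurable_prod
    intro i _
    have h1 : Measurable (fun c : Fin n → ℝ => (sol v a (fun k => c (a k)) ⬝ᵥ v i, c i)) :=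
      ((sol_measurable v a (v i)).comp (measurable_pi_lambda _
        (fun k => measurable_pi_apply (a k)))).prodMk (measurable_pi_apply _)
    exact (measurable_hh (η i)).comp h1

lemma lintegral_integ (v : Fin n → Fin d → ℝ) (a : Fin d → Fin n) (hdet : (Vm v a).det ≠ 0)
    (η : Fin n → ℝ) (hη : ∀ i : Off a, η i = 1 ∨ η i = -1) :
    ∫⁻ c, integ v a η c = ENNReal.ofReal |(Vm v a).det| *
      ∫⁻ y : Fin d → ℝ, (∏ k, lf (y ⬝ᵥ v (a k))) *
        ∏ i : Off a, ENNReal.ofReal (lF (η i * (y ⬝ᵥ v i))) := by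
  have hinj := injective_of_det v a hdet
  have h1 := (mp_split a hinj).lintegral_comp (measurable_integ_aux v a η)
  have h2 : ∫⁻ c, integ v a η c = ∫⁻ p, ((∏ k, lf (p.1 k)) *
      ∏ i : Off a, hh (η i) (sol v a p.1 ⬝ᵥ v i) (p.2 i))
      ∂((volume : Measure (Fin d → ℝ)).prod (volume : Measure (Off a → ℝ))) := h1
  rw [h2, lintegral_prod _ (measurable_integ_aux v a η).aemeasurable]
  have h3 : ∀ z : Fin d → ℝ, ∫⁻ r : Off a → ℝ, ((∏ k, lf (z k)) *
      ∏ i : Off a, hh (η i) (sol v a z ⬝ᵥ v i) (r i)) =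
      (∏ k, lf (z k)) * ∏ i : Off a, ENNReal.ofReal (lF (η i * (sol v a z ⬝ᵥ v i))) := by
    intro z
    have hm : ∀ i : Off a, Measurable (fun r : ℝ => hh (η i) (sol v a z ⬝ᵥ v i) r) := by
      intro i
      exact (measurable_hh (η i)).comp (measurable_const.prodMk measurable_id)
    have hmeas : Measurable (fun r : Off a → ℝ =>
        ∏ i : Off a, hh (η i) (sol v a z ⬝ᵥ v i) (r i)) := by
      apply Finset.measurable_prod
      intro i _
      exact (hm i).comp (measurable_pi_apply i)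
    rw [lintegral_const_mul _ hmeas]
    rw [lintegral_fintype_prod (fun (i : Off a) (r : ℝ) => hh (η i) (sol v a z ⬝ᵥ v i) r) hm]
    congr 1
    apply Finset.prod_congr rfl
    intro i _
    exact lintegral_hh _ _ (hη i)
  simp only [h3]
  rw [lintegral_linear (Vm v a) hdet]
  · congr 1
    apply lintegral_congr
    intro y
    rw [sol_mulVec v a hdet]
    simp only [mulVec_Vm]
  · apply Measurable.mul
    · apply Finset.measurable_prod
      intro k _
      exact measurable_lf.comp (measurable_pi_apply k)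
    · apply Finset.measurable_prod
      intro i _
      have hc : Continuous (fun z : ℝ => lF (η i * z)) := by
        have : Continuous lF := by
          rw [continuous_iff_continuousAt]
          intro t
          exact (lF_deriv t).continuousAt
        exact this.comp (continuous_const.mul continuous_id)
      exact (hc.measurable.comp (sol_measurable v a (v i))).ennreal_ofReal

lemma exp_abs_le (t : ℝ) : Real.exp |t| ≤ 2 * Real.cosh t := by
  rw [Real.cosh_eq]
  have := Real.exp_pos t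
  have := Real.exp_pos (-t)
  rcases abs_cases t with ⟨h, _⟩ | ⟨h, _⟩ <;> rw [h] <;> linarith

/-- The pointwise bound. -/
lemma pointwise (v : Fin n → Fin d → ℝ) (a : Fin d → Fin n) (ha : Function.Injective a)
    (x : Fin n → ℝ) (hx : ∀ i, |x i| ≤ 1) (hx0 : ∑ i, x i • v i = 0)
    (hη : ∀ i : Off a, x i = 1 ∨ x i = -1) (y : Fin d → ℝ) :
    (∏ k, lr (y ⬝ᵥ v (a k))) * ∏ i : Off a, lF (x i * (y ⬝ᵥ v i)) ≤
      (2 ^ d * (1 / 2) ^ n) * ∏ i, (1 / Real.cosh (y ⬝ᵥ v i)) := by
  have hsum : ∑ i, x i * (y ⬝ᵥ v i) = 0 := by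
    have : y ⬝ᵥ (∑ i, x i • v i) = ∑ i, x i * (y ⬝ᵥ v i) := by
      rw [dotProduct_sum]
      apply Finset.sum_congr rfl
      intro i _
      rw [dotProduct_smul, smul_eq_mul]
    rw [← this, hx0, dotProduct_zero]
  rw [sum_split a ha] at hsum
  have hcosh : ∀ t : ℝ, 0 < Real.cosh t := Real.cosh_pos
  -- rewrite lF
  have h1 : ∀ i : Off a, lF (x i * (y ⬝ᵥ v i)) =
      Real.exp (x i * (y ⬝ᵥ v i)) * (1 / 2 * (1 / Real.cosh (y ⬝ᵥ v i))) := by
    intro i
    unfold lF
    have : Real.cosh (x i * (y ⬝ᵥ v i)) = Real.cosh (y ⬝ᵥ v i) := by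
      rcases hη i with h | h <;> rw [h]
      · rw [one_mul]
      · rw [neg_one_mul, Real.cosh_neg]
    rw [this]
    have := hcosh (y ⬝ᵥ v i)
    field_simp
  have h2 : ∏ i : Off a, lF (x i * (y ⬝ᵥ v i)) =
      Real.exp (∑ i : Off a, x i * (y ⬝ᵥ v i)) *
        ∏ i : Off a, (1 / 2 * (1 / Real.cosh (y ⬝ᵥ v i))) := by
    rw [Real.exp_sum, ← Finset.prod_mul_distrib]
    exact Finset.prod_congr rfl (fun i _ => h1 i)
  have h3 : Real.exp (∑ i : Off a, x i * (y ⬝ᵥ v i)) ≤ ∏ k, Real.exp |y ⬝ᵥ v (a k)| := by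
    rw [← Real.exp_sum, Real.exp_le_exp]
    have : ∑ i : Off a, x i * (y ⬝ᵥ v i) = ∑ k, -(x (a k) * (y ⬝ᵥ v (a k))) := by
      rw [Finset.sum_neg_distrib]; linarith
    rw [this]
    apply Finset.sum_le_sum
    intro k _
    calc -(x (a k) * (y ⬝ᵥ v (a k))) ≤ |x (a k) * (y ⬝ᵥ v (a k))| := neg_le_abs _
      _ = |x (a k)| * |y ⬝ᵥ v (a k)| := abs_mul _ _
      _ ≤ 1 * |y ⬝ᵥ v (a k)| := mul_le_mul_of_nonneg_right (hx _) (abs_nonneg _)
      _ = _ := one_mul _
  have h4 : (2 ^ d * (1 / 2) ^ n) * ∏ i, (1 / Real.cosh (y ⬝ᵥ v i)) =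
      (∏ k, (1 / Real.cosh (y ⬝ᵥ v (a k)))) *
        ∏ i : Off a, (1 / 2 * (1 / Real.cosh (y ⬝ᵥ v i))) := by
    have e1 : ∏ i, ((1 : ℝ) / 2 * (1 / Real.cosh (y ⬝ᵥ v i))) =
        (1 / 2) ^ n * ∏ i, (1 / Real.cosh (y ⬝ᵥ v i)) := by
      rw [Finset.prod_mul_distrib, Finset.prod_const, Finset.card_univ, Fintype.card_fin]
    rw [mul_assoc, ← e1, prod_split a ha (fun i => (1 : ℝ) / 2 * (1 / Real.cosh (y ⬝ᵥ v i))),
      ← mul_assoc]
    congr 1
    rw [Finset.prod_mul_distrib, Finset.prod_const, Finset.card_univ, Fintype.card_fin, ← mul_assoc,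
      ← mul_pow]
    norm_num
  rw [h4, h2, ← mul_assoc]
  apply mul_le_mul_of_nonneg_right
  · calc (∏ k, lr (y ⬝ᵥ v (a k))) * Real.exp (∑ i : Off a, x i * (y ⬝ᵥ v i))
        ≤ (∏ k, lr (y ⬝ᵥ v (a k))) * ∏ k, Real.exp |y ⬝ᵥ v (a k)| :=
          mul_le_mul_of_nonneg_left h3 (Finset.prod_nonneg (fun k _ => lr_nonneg _))
      _ = ∏ k, (lr (y ⬝ᵥ v (a k)) * Real.exp |y ⬝ᵥ v (a k)|) := by rw [Finset.prod_mul_distrib]
      _ ≤ ∏ k, (1 / Real.cosh (y ⬝ᵥ v (a k))) := by
          apply Finset.prod_le_prod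
          · intro k _
            exact mul_nonneg (lr_nonneg _) (Real.exp_pos _).le
          · intro k _
            have hc := hcosh (y ⬝ᵥ v (a k))
            have he := exp_abs_le (y ⬝ᵥ v (a k))
            unfold lr
            rw [div_mul_eq_mul_div, one_mul, div_le_div_iff₀ (by positivity) hc]
            nlinarith
  · apply Finset.prod_nonneg
    intro i _
    have := hcosh (y ⬝ᵥ v i)
    positivity

/-- The main upper bound for the weight of a tuple and sign pattern. -/
theorem weight_bound (v : Fin n → Fin d → ℝ) (a : Fin d → Fin n) (hdet : (Vm v a).det ≠ 0)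
    (x : Fin n → ℝ) (hx : ∀ i, |x i| ≤ 1) (hx0 : ∑ i, x i • v i = 0)
    (hη : ∀ i : Off a, x i = 1 ∨ x i = -1) :
    ∫⁻ c, integ v a x c ≤ ENNReal.ofReal |(Vm v a).det| *
      (ENNReal.ofReal (2 ^ d * (1 / 2) ^ n) *
        ∫⁻ y : Fin d → ℝ, ∏ i, ENNReal.ofReal (1 / Real.cosh (y ⬝ᵥ v i))) := by
  rw [lintegral_integ v a hdet x hη]
  gcongr
  rw [← lintegral_const_mul']
  · apply lintegral_mono
    intro y
    simp only
    have e1 : (∏ k, lf (y ⬝ᵥ v (a k))) * ∏ i : Off a, ENNReal.ofReal (lF (x i * (y ⬝ᵥ v i))) =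
        ENNReal.ofReal ((∏ k, lr (y ⬝ᵥ v (a k))) * ∏ i : Off a, lF (x i * (y ⬝ᵥ v i))) := by
      unfold lf
      rw [← ENNReal.ofReal_prod_of_nonneg (fun k _ => lr_nonneg _),
        ← ENNReal.ofReal_prod_of_nonneg (fun k _ => lF_nonneg _),
        ← ENNReal.ofReal_mul (Finset.prod_nonneg (fun k _ => lr_nonneg _))]
    have hpos : ∀ i, 0 ≤ 1 / Real.cosh (y ⬝ᵥ v i) := by
      intro i
      have := Real.cosh_pos (y ⬝ᵥ v i)
      positivity
    rw [e1, ← ENNReal.ofReal_prod_of_nonneg (fun i _ => hpos i), ← ENNReal.ofReal_mul (by positivity)]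
    exact ENNReal.ofReal_le_ofReal (pointwise v a (injective_of_det v a hdet) x hx hx0 hη y)
  · exact ENNReal.ofReal_ne_top

end Pool.Agent.H801R3.SB
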