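import Mathlib
import Pool.Agent.H801R3.SB.Weight

set_option autoImplicit false

open MeasureTheory Filter Topology Matrix
open scoped ENNReal

namespace Pool.Agent.H801R3.SB

variable {n d : ℕ}

/-- Square root of a positive semidefinite matrix. -/
theorem exists_sqrt (Q : Matrix (Fin d) (Fin d) ℝ) (hQ : Q.PosSemidef) :
    ∃ B : Matrix (Fin d) (Fin d) ℝ, Bᵀ * B = Q := by
  open scoped MatrixOrder in
  refine ⟨CFC.sqrt Q, ?_⟩
  have h1 : (CFC.sqrt Q)ᵀ = CFC.sqrt Q := by
    have := (CFC.sqrt_nonneg Q).posSemidef.isHermitian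
    have h2 := this.eq
    rwa [Matrix.conjTranspose_eq_transpose_of_trivial] at h2
  rw [h1]
  exact CFC.sqrt_mul_sqrt_self _ hQ.nonneg

lemma gauss_one : ∫⁻ x : ℝ, ENNReal.ofReal (Real.exp (-x ^ 2)) = ENNReal.ofReal √Real.pi := by
  have h := integral_gaussian 1
  have hint : Integrable (fun x : ℝ => Real.exp (-1 * x ^ 2)) := integrable_exp_neg_mul_sq one_pos
  have h2 := ofReal_integral_eq_lintegral_ofReal hint (Eventually.of_forall (fun x => (Real.exp_pos _).le))
  rw [h, div_one] at h2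
  rw [h2]
  apply lintegral_congr
  intro x
  ring_nf

/-- Gaussian integral of a positive definite form. -/
theorem gauss_form (Q : Matrix (Fin d) (Fin d) ℝ) (hQ : Q.PosSemidef) (hdet : 0 < Q.det) :
    ∫⁻ y : Fin d → ℝ, ENNReal.ofReal (Real.exp (-(y ⬝ᵥ (Q *ᵥ y)))) =
      ENNReal.ofReal (√Real.pi ^ d / √Q.det) := by
  obtain ⟨B, hB⟩ := exists_sqrt Q hQ
  have hdetB : Q.det = B.det ^ 2 := by
    rw [← hB, det_mul, det_transpose]; ring
  have hB0 : B.det ≠ 0 := by
    intro h
    rw [hdetB, h] at hdet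
    norm_num at hdet
  have hsqrt : √Q.det = |B.det| := by rw [hdetB, Real.sqrt_sq_eq_abs]
  let G : (Fin d → ℝ) → ℝ≥0∞ := fun z => ∏ k, ENNReal.ofReal (Real.exp (-(z k) ^ 2))
  have hGm : Measurable G := by
    apply Finset.measurable_prod
    intro k _
    have : Continuous (fun z : Fin d → ℝ => Real.exp (-(z k) ^ 2)) := by fun_prop
    exact this.measurable.ennreal_ofReal
  have h1 : ∫⁻ z, G z = ENNReal.ofReal (√Real.pi ^ d) := by
    have hm : ∀ k : Fin d, Measurable (fun x : ℝ => ENNReal.ofReal (Real.exp (-x ^ 2))) := by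
      intro k
      have : Continuous (fun x : ℝ => Real.exp (-x ^ 2)) := by fun_prop
      exact this.measurable.ennreal_ofReal
    have := lintegral_fintype_prod (fun (_ : Fin d) (x : ℝ) => ENNReal.ofReal (Real.exp (-x ^ 2))) hm
    simp only [G]
    rw [this]
    simp only [gauss_one, Finset.prod_const, Finset.card_univ, Fintype.card_fin]
    rw [ENNReal.ofReal_pow (Real.sqrt_nonneg _)]
  have h2 := lintegral_linear B hB0 G hGm
  have h3 : ∀ y : Fin d → ℝ, G (B *ᵥ y) = ENNReal.ofReal (Real.exp (-(y ⬝ᵥ (Q *ᵥ y)))) := by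
    intro y
    simp only [G]
    rw [← ENNReal.ofReal_prod_of_nonneg (fun k _ => (Real.exp_pos _).le), ← Real.exp_sum]
    congr 2
    have e : y ⬝ᵥ (Q *ᵥ y) = (B *ᵥ y) ⬝ᵥ (B *ᵥ y) := by
      rw [← hB, ← mulVec_mulVec, dotProduct_mulVec, vecMul_transpose]
    rw [e]
    simp only [dotProduct]
    rw [← Finset.sum_neg_distrib]
    apply Finset.sum_congr rfl
    intro k _
    ring
  simp only [h3] at h2
  rw [h1] at h2
  have hpos : 0 < |B.det| := abs_pos.mpr hB0
  rw [hsqrt]
  have hne : ENNReal.ofReal |B.det| ≠ 0 := by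
    simpa using hB0
  have h4 : ENNReal.ofReal (√Real.pi ^ d / |B.det|) =
      (ENNReal.ofReal |B.det|)⁻¹ * ENNReal.ofReal (√Real.pi ^ d) := by
    rw [div_eq_inv_mul, ENNReal.ofReal_mul (by positivity), ENNReal.ofReal_inv_of_pos hpos]
  rw [h4, h2, ← mul_assoc, ENNReal.inv_mul_cancel hne ENNReal.ofReal_ne_top, one_mul]

/-- Gamma type density with parameter two. -/
noncomputable def gam (s : ℝ) : ℝ≥0∞ :=
  (Set.Ioi (0 : ℝ)).indicator (fun s => ENNReal.ofReal (s * Real.exp (-s))) s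

lemma measurable_gam : Measurable gam := by
  unfold gam
  apply Measurable.indicator _ measurableSet_Ioi
  have : Continuous (fun s : ℝ => s * Real.exp (-s)) := by fun_prop
  exact this.measurable.ennreal_ofReal

lemma int_s (r : ℝ) (hr : 0 < r) :
    ∫⁻ s in Set.Ioi (0 : ℝ), ENNReal.ofReal (s * Real.exp (-(r * s))) =
      ENNReal.ofReal ((1 / r) ^ 2) := by
  have h := Real.integral_rpow_mul_exp_neg_mul_Ioi (a := 2) (r := r) (by norm_num) hr
  have hG : Real.Gamma 2 = 1 := Real.Gamma_two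
  rw [hG, mul_one] at h
  have hne : ∫ t in Set.Ioi (0 : ℝ), t ^ ((2 : ℝ) - 1) * Real.exp (-(r * t)) ≠ 0 := by
    rw [h]; positivity
  have hint : IntegrableOn (fun t : ℝ => t ^ ((2 : ℝ) - 1) * Real.exp (-(r * t))) (Set.Ioi 0) := by
    by_contra hc
    exact hne (integral_undef hc)
  have h2 := ofReal_integral_eq_lintegral_ofReal hint (by
    rw [EventuallyLE, ae_restrict_iff' measurableSet_Ioi]
    apply Eventually.of_forall
    intro t ht
    simp only [Pi.zero_apply]
    have : (0 : ℝ) < t := ht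
    positivity)
  rw [h] at h2
  have h3 : (1 / r) ^ (2 : ℝ) = (1 / r) ^ 2 := by
    have := Real.rpow_natCast (1 / r) 2
    exact_mod_cast this
  rw [← h3, h2]
  apply setLIntegral_congr_fun measurableSet_Ioi
  intro t _
  simp only
  congr 2
  have : (2 : ℝ) - 1 = 1 := by norm_num
  rw [this, Real.rpow_one]

lemma int_one : ∫⁻ s in Set.Ioi (0 : ℝ), ENNReal.ofReal (Real.exp (-s)) = 1 := by
  have h := Real.integral_rpow_mul_exp_neg_mul_Ioi (a := 1) (r := 1) (by norm_num) (by norm_num)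
  have hne : ∫ t in Set.Ioi (0 : ℝ), t ^ ((1 : ℝ) - 1) * Real.exp (-(1 * t)) ≠ 0 := by
    rw [h]; simp
  have hint : IntegrableOn (fun t : ℝ => t ^ ((1 : ℝ) - 1) * Real.exp (-(1 * t))) (Set.Ioi 0) := by
    by_contra hc
    exact hne (integral_undef hc)
  have h2 := ofReal_integral_eq_lintegral_ofReal hint (by
    rw [EventuallyLE, ae_restrict_iff' measurableSet_Ioi]
    apply Eventually.of_forall
    intro t ht
    simp only [Pi.zero_apply]
    have : (0 : ℝ) < t := ht
    positivity)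
  rw [h] at h2
  have h3 : (1 / (1:ℝ)) ^ (1 : ℝ) * Real.Gamma 1 = 1 := by simp
  rw [h3, ENNReal.ofReal_one] at h2
  rw [h2]
  apply setLIntegral_congr_fun measurableSet_Ioi
  intro t _
  simp only
  congr 1
  simp

lemma gam_total : ∫⁻ s, gam s = 1 := by
  unfold gam
  rw [lintegral_indicator measurableSet_Ioi]
  have := int_s 1 one_pos
  simpa using this

lemma gam_inv_total : ∫⁻ s, gam s * ENNReal.ofReal (1 / s) = 1 := by
  have h : (fun s => gam s * ENNReal.ofReal (1 / s)) =
      (Set.Ioi (0 : ℝ)).indicator (fun s => ENNReal.ofReal (Real.exp (-s))) := by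
    funext s
    unfold gam
    by_cases hs : s ∈ Set.Ioi (0 : ℝ)
    · rw [Set.indicator_of_mem hs, Set.indicator_of_mem hs]
      have hs' : (0 : ℝ) < s := hs
      rw [← ENNReal.ofReal_mul (by positivity)]
      congr 1
      field_simp
    · rw [Set.indicator_of_notMem hs, Set.indicator_of_notMem hs, zero_mul]
  rw [h, lintegral_indicator measurableSet_Ioi, int_one]

lemma cosh_lower (t : ℝ) : (1 + t ^ 2 / 5) ^ 2 ≤ Real.cosh t := by
  have h := Real.hasSum_cosh t
  have h2 := sum_le_hasSum (Finset.range 3) (fun i _ => by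
    have : 0 ≤ t ^ (2 * i) := by
      rw [pow_mul]; positivity
    positivity) h
  simp only [Finset.sum_range_succ, Finset.sum_range_zero] at h2
  norm_num [Nat.factorial] at h2
  nlinarith [sq_nonneg t, sq_nonneg (t ^ 2)]

lemma mixture (t : ℝ) : ENNReal.ofReal (1 / Real.cosh t) ≤
    ∫⁻ s, gam s * ENNReal.ofReal (Real.exp (-(s * (t ^ 2 / 5)))) := by
  have h : (fun s => gam s * ENNReal.ofReal (Real.exp (-(s * (t ^ 2 / 5))))) =
      (Set.Ioi (0 : ℝ)).indicator (fun s => ENNReal.ofReal (s * Real.exp (-((1 + t ^ 2 / 5) * s)))) := by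
    funext s
    unfold gam
    by_cases hs : s ∈ Set.Ioi (0 : ℝ)
    · rw [Set.indicator_of_mem hs, Set.indicator_of_mem hs]
      have hs' : (0 : ℝ) < s := hs
      rw [← ENNReal.ofReal_mul (by positivity), mul_assoc, ← Real.exp_add]
      congr 3
      ring
    · rw [Set.indicator_of_notMem hs, Set.indicator_of_notMem hs, zero_mul]
  rw [h, lintegral_indicator measurableSet_Ioi, int_s _ (by positivity)]
  apply ENNReal.ofReal_le_ofReal
  rw [div_pow, one_pow]
  apply one_div_le_one_div_of_le (by positivity) (cosh_lower t)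

/-- Quadratic form of the weighted Gram matrix. -/
lemma Qs_form (v : Fin n → Fin d → ℝ) (s : Fin n → ℝ) (u : Fin d → ℝ) :
    u ⬝ᵥ (Qs v s *ᵥ u) = ∑ i, s i * (u ⬝ᵥ v i) ^ 2 := by
  simp only [Qs, dotProduct, mulVec, Matrix.of_apply, sq, Finset.mul_sum, Finset.sum_mul]
  rw [Finset.sum_comm]
  conv_lhs =>
    enter [2, l]
    rw [Finset.sum_comm]
  rw [Finset.sum_comm]
  apply Finset.sum_congr rfl
  intro i _
  apply Finset.sum_congr rfl
  intro k _
  apply Finset.sum_congr rfl
  intro l _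
  ring

lemma Qs_posSemidef (v : Fin n → Fin d → ℝ) (s : Fin n → ℝ) (hs : ∀ i, 0 ≤ s i) :
    (Qs v s).PosSemidef := by
  apply Matrix.PosSemidef.of_dotProduct_mulVec_nonneg
  · ext k l
    simp only [Qs, Matrix.conjTranspose_apply, Matrix.of_apply, star_trivial]
    apply Finset.sum_congr rfl
    intro i _
    ring
  · intro u
    rw [star_trivial, Qs_form]
    exact Finset.sum_nonneg (fun i _ => mul_nonneg (hs i) (sq_nonneg _))

lemma Qs_det_pos (v : Fin n → Fin d → ℝ)
    (hspan : ∀ u : Fin d → ℝ, (∀ i, u ⬝ᵥ v i = 0) → u = 0) (s : Fin n → ℝ) (hs : ∀ i, 0 < s i) :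
    0 < (Qs v s).det := by
  have h0 : 0 ≤ (Qs v s).det := (Qs_posSemidef v s (fun i => (hs i).le)).det_nonneg
  apply lt_of_le_of_ne h0
  intro h
  obtain ⟨u, hu, hQu⟩ := Matrix.exists_mulVec_eq_zero_iff.mpr h.symm
  apply hu
  apply hspan
  have h1 := Qs_form v s u
  rw [hQu, dotProduct_zero] at h1
  have h2 := (Finset.sum_eq_zero_iff_of_nonneg (fun i _ =>
    mul_nonneg (hs i).le (sq_nonneg (u ⬝ᵥ v i)))).mp h1.symm
  intro i
  have h3 := h2 i (Finset.mem_univ i)
  rcases mul_eq_zero.mp h3 with h4 | h4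
  · exact absurd h4 (hs i).ne'
  · exact pow_eq_zero_iff (two_ne_zero) |>.mp h4

end Pool.Agent.H801R3.SB
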