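import Mathlib
import Pool.Agent.H801R3.SB.Gauss

set_option autoImplicit false

open MeasureTheory Filter Topology Matrix
open scoped ENNReal

namespace Pool.Agent.H801R3.SB

variable {n d : ℕ}

/-- Gaussian integral for the weights `s`. -/
noncomputable def JJ (v : Fin n → Fin d → ℝ) (s : Fin n → ℝ) : ℝ≥0∞ :=
  ∫⁻ y : Fin d → ℝ, ∏ i, ENNReal.ofReal (Real.exp (-(s i * ((y ⬝ᵥ v i) ^ 2 / 5))))

lemma measurable_pair (v : Fin n → Fin d → ℝ) (i : Fin n) :
    Measurable (fun p : (Fin d → ℝ) × (Fin n → ℝ) =>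
      ENNReal.ofReal (Real.exp (-(p.2 i * ((p.1 ⬝ᵥ v i) ^ 2 / 5))))) := by
  have : Continuous (fun p : (Fin d → ℝ) × (Fin n → ℝ) =>
      Real.exp (-(p.2 i * ((p.1 ⬝ᵥ v i) ^ 2 / 5)))) := by
    apply Real.continuous_exp.comp
    apply Continuous.neg
    apply Continuous.mul
    · exact (continuous_apply i).comp continuous_snd
    · apply Continuous.div_const
      apply Continuous.pow
      exact Continuous.dotProduct continuous_fst continuous_const
  exact this.measurable.ennreal_ofReal

lemma stepA (v : Fin n → Fin d → ℝ) :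
    ∫⁻ y : Fin d → ℝ, ∏ i, ENNReal.ofReal (1 / Real.cosh (y ⬝ᵥ v i)) ≤
      ∫⁻ s : Fin n → ℝ, (∏ i, gam (s i)) * JJ v s := by
  have hm2 : Measurable (fun p : (Fin d → ℝ) × (Fin n → ℝ) =>
      (∏ i, gam (p.2 i)) * ∏ i, ENNReal.ofReal (Real.exp (-(p.2 i * ((p.1 ⬝ᵥ v i) ^ 2 / 5))))) := by
    apply Measurable.mul
    · apply Finset.measurable_prod
      intro i _
      exact measurable_gam.comp ((measurable_pi_apply i).comp measurable_snd)
    · apply Finset.measurable_prod
      intro i _
      exact measurable_pair v i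
  calc ∫⁻ y : Fin d → ℝ, ∏ i, ENNReal.ofReal (1 / Real.cosh (y ⬝ᵥ v i))
      ≤ ∫⁻ y : Fin d → ℝ, ∫⁻ s : Fin n → ℝ, (∏ i, gam (s i)) *
        ∏ i, ENNReal.ofReal (Real.exp (-(s i * ((y ⬝ᵥ v i) ^ 2 / 5)))) := by
        apply lintegral_mono
        intro y
        simp only
        have h1 : ∀ i : Fin n, Measurable (fun s : ℝ =>
            gam s * ENNReal.ofReal (Real.exp (-(s * ((y ⬝ᵥ v i) ^ 2 / 5))))) := by
          intro i
          apply measurable_gam.mul
          have : Continuous (fun s : ℝ => Real.exp (-(s * ((y ⬝ᵥ v i) ^ 2 / 5)))) := by fun_prop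
          exact this.measurable.ennreal_ofReal
        have h2 := lintegral_fintype_prod (fun (i : Fin n) (s : ℝ) =>
            gam s * ENNReal.ofReal (Real.exp (-(s * ((y ⬝ᵥ v i) ^ 2 / 5))))) h1
        simp only [Finset.prod_mul_distrib] at h2
        rw [h2]
        exact Finset.prod_le_prod' (fun i _ => mixture _)
    _ = ∫⁻ s : Fin n → ℝ, ∫⁻ y : Fin d → ℝ, (∏ i, gam (s i)) *
        ∏ i, ENNReal.ofReal (Real.exp (-(s i * ((y ⬝ᵥ v i) ^ 2 / 5)))) :=
        lintegral_lintegral_swap hm2.aemeasurable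
    _ = _ := by
        apply lintegral_congr
        intro s
        rw [JJ, lintegral_const_mul]
        apply Finset.measurable_prod
        intro i _
        exact (measurable_pair v i).comp (measurable_id.prodMk measurable_const)

lemma JJ_eq (v : Fin n → Fin d → ℝ)
    (hspan : ∀ u : Fin d → ℝ, (∀ i, u ⬝ᵥ v i = 0) → u = 0) (s : Fin n → ℝ) (hs : ∀ i, 0 < s i) :
    JJ v s = ENNReal.ofReal (√Real.pi ^ d / √(Qs v (fun i => s i / 5)).det) := by
  have hs5 : ∀ i, 0 < s i / 5 := fun i => by have := hs i; positivity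
  rw [← gauss_form _ (Qs_posSemidef v _ (fun i => (hs5 i).le)) (Qs_det_pos v hspan _ hs5)]
  apply lintegral_congr
  intro y
  rw [← ENNReal.ofReal_prod_of_nonneg (fun i _ => (Real.exp_pos _).le), ← Real.exp_sum, Qs_form]
  congr 2
  rw [← Finset.sum_neg_distrib]
  apply Finset.sum_congr rfl
  intro i _
  ring

open Classical in
/-- tuples with nonzero determinant -/
noncomputable def AA (v : Fin n → Fin d → ℝ) : Finset (Fin d → Fin n) :=
  Finset.univ.filter (fun a => (Vm v a).det ≠ 0)

lemma card_AA_le (v : Fin n → Fin d → ℝ) : (AA v).card ≤ n ^ d := by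
  refine (Finset.card_le_univ _).trans ?_
  simp

lemma real_bound (v : Fin n → Fin d → ℝ)
    (hspan : ∀ u : Fin d → ℝ, (∀ i, u ⬝ᵥ v i = 0) → u = 0) (s : Fin n → ℝ) (hs : ∀ i, 0 < s i)
    (lam : ℝ) (hl : 0 < lam) :
    (∑ a : Fin d → Fin n, |(Vm v a).det|) * (√Real.pi ^ d / √(Qs v (fun i => s i / 5)).det) ≤
      (√(5 * Real.pi) ^ d * √(d.factorial : ℝ) / (2 * lam)) *
          (∑ a ∈ AA v, ∏ k, (1 / s (a k))) +
        √(5 * Real.pi) ^ d * √(d.factorial : ℝ) * lam / 2 := by
  have hs5 : ∀ i, 0 < s i / 5 := fun i => by have := hs i; positivity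
  set q := (Qs v (fun i => s i / 5)).det with hq
  have hq0 : 0 < q := Qs_det_pos v hspan _ hs5
  set X := ∑ a ∈ AA v, ∏ k, (1 / s (a k)) with hX
  set D := ∑ a : Fin d → Fin n, |(Vm v a).det| with hD
  have hX0 : 0 ≤ X := Finset.sum_nonneg (fun a _ => Finset.prod_nonneg (fun k _ => by
    have := hs (a k); positivity))
  have hD0 : 0 ≤ D := Finset.sum_nonneg (fun a _ => abs_nonneg _)
  have hDA : D = ∑ a ∈ AA v, |(Vm v a).det| := by
    rw [hD]
    symm
    apply Finset.sum_subset (Finset.subset_univ _)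
    intro a _ ha
    have : (Vm v a).det = 0 := by
      by_contra h
      exact ha (by simp [AA, h])
    rw [this, abs_zero]
  have hCS : D ^ 2 ≤ (∑ a ∈ AA v, (∏ k, (s (a k) / 5)) * (Vm v a).det ^ 2) *
      ∑ a ∈ AA v, ∏ k, (5 / s (a k)) := by
    rw [hDA]
    apply Finset.sum_sq_le_sum_mul_sum_of_sq_eq_mul
    · intro a _
      exact mul_nonneg (Finset.prod_nonneg (fun k _ => (hs5 (a k)).le)) (sq_nonneg _)
    · intro a _
      exact Finset.prod_nonneg (fun k _ => by have := hs (a k); positivity)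
    · intro a _
      have h1 : (∏ k, (s (a k) / 5)) * ∏ k, (5 / s (a k)) = 1 := by
        rw [← Finset.prod_mul_distrib]
        apply Finset.prod_eq_one
        intro k _
        have := (hs (a k)).ne'
        field_simp
      rw [sq_abs]
      linear_combination (-(Vm v a).det ^ 2) * h1
  have h5 : ∑ a ∈ AA v, ∏ k, (5 / s (a k)) = 5 ^ d * X := by
    rw [hX, Finset.mul_sum]
    apply Finset.sum_congr rfl
    intro a _
    have : ∀ k, 5 / s (a k) = 5 * (1 / s (a k)) := fun k => by ring
    simp only [this]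
    rw [Finset.prod_mul_distrib, Finset.prod_const, Finset.card_univ, Fintype.card_fin]
  have hdet : ∑ a ∈ AA v, (∏ k, (s (a k) / 5)) * (Vm v a).det ^ 2 = d.factorial * q := by
    rw [hq, det_Qs]
    have hf : (d.factorial : ℝ) ≠ 0 := by positivity
    rw [← mul_assoc, mul_inv_cancel₀ hf, one_mul]
    apply Finset.sum_subset (Finset.subset_univ _)
    intro a _ ha
    have : (Vm v a).det = 0 := by
      by_contra h
      exact ha (by simp [AA, h])
    rw [this]; simp
  rw [hdet, h5] at hCS
  have hsq : 0 < √q := Real.sqrt_pos.mpr hq0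
  have hD2 : D ≤ √(d.factorial : ℝ) * √q * √5 ^ d * √X := by
    rw [← Real.sqrt_sq hD0]
    have e : √(d.factorial : ℝ) * √q * √5 ^ d * √X = √((d.factorial * q) * (5 ^ d * X)) := by
      rw [Real.sqrt_mul (by positivity), Real.sqrt_mul (by positivity), Real.sqrt_mul (by positivity)]
      have : √(5 ^ d : ℝ) = √5 ^ d := by
        rw [← Real.sqrt_sq (by positivity : 0 ≤ √(5:ℝ) ^ d), ← pow_mul, mul_comm d 2, pow_mul,
          Real.sq_sqrt (by norm_num)]
      rw [this]; ring
    rw [e]
    exact Real.sqrt_le_sqrt hCS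
  have hlamX : √X ≤ X / (2 * lam) + lam / 2 := by
    have h1 : 0 ≤ (√X - lam) ^ 2 := sq_nonneg _
    have h2 : √X ^ 2 = X := Real.sq_sqrt hX0
    have h3 : X / (2 * lam) + lam / 2 = (X + lam ^ 2) / (2 * lam) := by
      field_simp
    rw [h3, le_div_iff₀ (by positivity)]
    nlinarith
  have h5pi : √(5 * Real.pi) = √5 * √Real.pi := Real.sqrt_mul (by norm_num) _
  have hpi : 0 < √Real.pi := Real.sqrt_pos.mpr Real.pi_pos
  calc D * (√Real.pi ^ d / √q)
      ≤ (√(d.factorial : ℝ) * √q * √5 ^ d * √X) * (√Real.pi ^ d / √q) := by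
        apply mul_le_mul_of_nonneg_right hD2 (by positivity)
    _ = √(5 * Real.pi) ^ d * √(d.factorial : ℝ) * √X := by
        rw [h5pi, mul_pow]
        field_simp
    _ ≤ √(5 * Real.pi) ^ d * √(d.factorial : ℝ) * (X / (2 * lam) + lam / 2) := by
        apply mul_le_mul_of_nonneg_left hlamX (by positivity)
    _ = _ := by
        field_simp

lemma stepB (v : Fin n → Fin d → ℝ)
    (hspan : ∀ u : Fin d → ℝ, (∀ i, u ⬝ᵥ v i = 0) → u = 0) (lam : ℝ) (hl : 0 < lam)
    (s : Fin n → ℝ) :
    (∏ i, gam (s i)) * (ENNReal.ofReal (∑ a : Fin d → Fin n, |(Vm v a).det|) * JJ v s) ≤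
      (∏ i, gam (s i)) * (ENNReal.ofReal (√(5 * Real.pi) ^ d * √(d.factorial : ℝ) / (2 * lam)) *
          (∑ a ∈ AA v, ∏ k, ENNReal.ofReal (1 / s (a k))) +
        ENNReal.ofReal (√(5 * Real.pi) ^ d * √(d.factorial : ℝ) * lam / 2)) := by
  by_cases hs : ∀ i, 0 < s i
  · gcongr
    rw [JJ_eq v hspan s hs, ← ENNReal.ofReal_mul (Finset.sum_nonneg (fun a _ => abs_nonneg _))]
    have e1 : ∑ a ∈ AA v, ∏ k, ENNReal.ofReal (1 / s (a k)) =
        ENNReal.ofReal (∑ a ∈ AA v, ∏ k, (1 / s (a k))) := by
      rw [ENNReal.ofReal_sum_of_nonneg]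
      · apply Finset.sum_congr rfl
        intro a _
        rw [ENNReal.ofReal_prod_of_nonneg]
        intro k _
        have := hs (a k)
        positivity
      · intro a _
        apply Finset.prod_nonneg
        intro k _
        have := hs (a k)
        positivity
    rw [e1, ← ENNReal.ofReal_mul (by positivity), ← ENNReal.ofReal_add]
    · exact ENNReal.ofReal_le_ofReal (real_bound v hspan s hs lam hl)
    · apply mul_nonneg (by positivity)
      apply Finset.sum_nonneg
      intro a _
      apply Finset.prod_nonneg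
      intro k _
      have := hs (a k)
      positivity
    · positivity
  · push Not at hs
    obtain ⟨i, hi⟩ := hs
    have : ∏ i, gam (s i) = 0 := by
      apply Finset.prod_eq_zero (Finset.mem_univ i)
      unfold gam
      rw [Set.indicator_of_notMem]
      simpa using hi
    rw [this]; simp

lemma prod_gam_total : ∫⁻ s : Fin n → ℝ, ∏ i, gam (s i) = 1 := by
  rw [lintegral_fintype_prod (fun _ => gam) (fun _ => measurable_gam)]
  simp [gam_total]

lemma prod_gam_inv (a : Fin d → Fin n) (ha : Function.Injective a) :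
    ∫⁻ s : Fin n → ℝ, (∏ i, gam (s i)) * ∏ k, ENNReal.ofReal (1 / s (a k)) = 1 := by
  classical
  let g : Fin n → ℝ → ℝ≥0∞ := fun i s =>
    if ∃ k, a k = i then gam s * ENNReal.ofReal (1 / s) else gam s
  have hgm : ∀ i, Measurable (g i) := by
    intro i
    simp only [g]
    split_ifs
    · apply measurable_gam.mul
      have : Measurable (fun s : ℝ => 1 / s) := by fun_prop
      exact this.ennreal_ofReal
    · exact measurable_gam
  have h1 : ∀ s : Fin n → ℝ, (∏ i, gam (s i)) * ∏ k, ENNReal.ofReal (1 / s (a k)) =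
      ∏ i, g i (s i) := by
    intro s
    rw [prod_split a ha (fun i => g i (s i)), prod_split a ha (fun i => gam (s i))]
    have e1 : ∏ k, g (a k) (s (a k)) = (∏ k, gam (s (a k))) * ∏ k, ENNReal.ofReal (1 / s (a k)) := by
      rw [← Finset.prod_mul_distrib]
      apply Finset.prod_congr rfl
      intro k _
      simp only [g]
      rw [if_pos ⟨k, rfl⟩]
    have e2 : ∏ i : Off a, g i (s i) = ∏ i : Off a, gam (s i) := by
      apply Finset.prod_congr rfl
      intro i _
      simp only [g]
      rw [if_neg i.2]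
    rw [e1, e2]; ring
  simp only [h1]
  rw [lintegral_fintype_prod g hgm]
  apply Finset.prod_eq_one
  intro i _
  simp only [g]
  split_ifs
  · exact gam_inv_total
  · exact gam_total

/-- The determinant-integral bound. -/
theorem det_bound (v : Fin n → Fin d → ℝ) (hn : 0 < n)
    (hspan : ∀ u : Fin d → ℝ, (∀ i, u ⬝ᵥ v i = 0) → u = 0) :
    (∑ a : Fin d → Fin n, ENNReal.ofReal |(Vm v a).det|) *
        ∫⁻ y : Fin d → ℝ, ∏ i, ENNReal.ofReal (1 / Real.cosh (y ⬝ᵥ v i)) ≤
      ENNReal.ofReal (√(5 * Real.pi) ^ d * √(d.factorial : ℝ) * √(n : ℝ) ^ d) := by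
  set C := √(5 * Real.pi) ^ d * √(d.factorial : ℝ) with hC
  set lam := √(n : ℝ) ^ d with hlam
  have hn' : (0 : ℝ) < n := by exact_mod_cast hn
  have hl : 0 < lam := by
    have : 0 < √(n : ℝ) := Real.sqrt_pos.mpr hn'
    positivity
  have hl2 : lam ^ 2 = (n : ℝ) ^ d := by
    rw [hlam, ← pow_mul, mul_comm d 2, pow_mul, Real.sq_sqrt hn'.le]
  have hC0 : 0 ≤ C := by positivity
  have hgm : Measurable (fun s : Fin n → ℝ => ∏ i, gam (s i)) :=
    Finset.measurable_prod _ (fun i _ => measurable_gam.comp (measurable_pi_apply i))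
  have hinvm : ∀ a : Fin d → Fin n, Measurable (fun s : Fin n → ℝ =>
      ∏ k, ENNReal.ofReal (1 / s (a k))) := by
    intro a
    apply Finset.measurable_prod
    intro k _
    have : Measurable (fun s : Fin n → ℝ => 1 / s (a k)) :=
      (measurable_const.div (measurable_pi_apply (a k)))
    exact this.ennreal_ofReal
  rw [← ENNReal.ofReal_sum_of_nonneg (fun a _ => abs_nonneg _)]
  set D := ∑ a : Fin d → Fin n, |(Vm v a).det| with hD
  calc ENNReal.ofReal D * ∫⁻ y : Fin d → ℝ, ∏ i, ENNReal.ofReal (1 / Real.cosh (y ⬝ᵥ v i))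
      ≤ ENNReal.ofReal D * ∫⁻ s : Fin n → ℝ, (∏ i, gam (s i)) * JJ v s := by
        gcongr
        exact stepA v
    _ = ∫⁻ s : Fin n → ℝ, (∏ i, gam (s i)) * (ENNReal.ofReal D * JJ v s) := by
        rw [← lintegral_const_mul']
        · apply lintegral_congr
          intro s
          ring
        · exact ENNReal.ofReal_ne_top
    _ ≤ ∫⁻ s : Fin n → ℝ, (∏ i, gam (s i)) * (ENNReal.ofReal (C / (2 * lam)) *
          (∑ a ∈ AA v, ∏ k, ENNReal.ofReal (1 / s (a k))) + ENNReal.ofReal (C * lam / 2)) := by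
        apply lintegral_mono
        intro s
        exact stepB v hspan lam hl s
    _ = ∫⁻ s : Fin n → ℝ, (ENNReal.ofReal (C / (2 * lam)) *
          (∑ a ∈ AA v, (∏ i, gam (s i)) * ∏ k, ENNReal.ofReal (1 / s (a k))) +
            ENNReal.ofReal (C * lam / 2) * ∏ i, gam (s i)) := by
        apply lintegral_congr
        intro s
        rw [← Finset.mul_sum]
        ring
    _ = ENNReal.ofReal (C / (2 * lam)) * (∑ a ∈ AA v, 1) + ENNReal.ofReal (C * lam / 2) * 1 := by
        rw [lintegral_add_right _ (hgm.const_mul _), lintegral_const_mul _ hgm, prod_gam_total,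
          lintegral_const_mul, lintegral_finsetSum]
        · congr 2
          apply Finset.sum_congr rfl
          intro a ha
          apply prod_gam_inv a
          apply injective_of_det v a
          simpa [AA] using ha
        · intro a _
          exact hgm.mul (hinvm a)
        · apply Finset.measurable_sum
          intro a _
          exact hgm.mul (hinvm a)
    _ ≤ ENNReal.ofReal (C / (2 * lam)) * ENNReal.ofReal (lam ^ 2) + ENNReal.ofReal (C * lam / 2) := by
        rw [mul_one]
        gcongr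
        rw [hl2]
        rw [Finset.sum_const, nsmul_eq_mul, mul_one]
        have h1 := card_AA_le v
        have h2 : ENNReal.ofReal ((n : ℝ) ^ d) = ((n ^ d : ℕ) : ℝ≥0∞) := by
          rw [← ENNReal.ofReal_natCast]; push_cast; rfl
        rw [h2]
        exact_mod_cast h1
    _ = ENNReal.ofReal (C * lam) := by
        rw [← ENNReal.ofReal_mul (by positivity), ← ENNReal.ofReal_add (by positivity) (by positivity)]
        congr 1
        field_simp
        ring

end Pool.Agent.H801R3.SB
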