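import Mathlib
import Pool.Agent.H801R3.SB.CB

set_option autoImplicit false

open Matrix

namespace Pool.Agent.H801R3.SB

variable {n d : ℕ}

/-- One step of the rounding. -/
lemma round_one (q w : Fin d → ℝ) (x : ℝ) (hx : |x| ≤ 1) (hw : w ⬝ᵥ w ≤ 1) :
    ∃ s : ℝ, (s = 1 ∨ s = -1) ∧
      (q + s • w) ⬝ᵥ (q + s • w) ≤ (q + x • w) ⬝ᵥ (q + x • w) + 1 := by
  have hexp : ∀ s : ℝ, (q + s • w) ⬝ᵥ (q + s • w) = q ⬝ᵥ q + 2 * s * (q ⬝ᵥ w) + s ^ 2 * (w ⬝ᵥ w) := by
    intro s
    simp only [dotProduct_add, add_dotProduct, smul_dotProduct, dotProduct_smul, smul_eq_mul]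
    rw [dotProduct_comm w q]; ring
  have hx1 := (abs_le.mp hx).1
  have hx2 := (abs_le.mp hx).2
  have hx3 : x ^ 2 ≤ 1 := by nlinarith
  have hw0 : 0 ≤ w ⬝ᵥ w := by
    simp only [dotProduct]
    exact Finset.sum_nonneg (fun i _ => mul_self_nonneg _)
  by_cases h : 0 ≤ q ⬝ᵥ w
  · refine ⟨-1, Or.inr rfl, ?_⟩
    rw [hexp, hexp]
    nlinarith [mul_nonneg h (by linarith : 0 ≤ x + 1), mul_nonneg hw0 (sq_nonneg x)]
  · push Not at h
    refine ⟨1, Or.inl rfl, ?_⟩
    rw [hexp, hexp]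
    nlinarith [mul_nonneg (by linarith : 0 ≤ -(q ⬝ᵥ w)) (by linarith : 0 ≤ 1 - x),
      mul_nonneg hw0 (sq_nonneg x)]

/-- Rounding of fractional coordinates. -/
lemma rounding (v : Fin n → Fin d → ℝ) (hv : ∀ i, v i ⬝ᵥ v i ≤ 1) (J : Finset (Fin n)) :
    ∀ (p : Fin d → ℝ) (x : Fin n → ℝ), (∀ i, |x i| ≤ 1) →
    ∃ s : Fin n → ℝ, (∀ i, s i = 1 ∨ s i = -1) ∧
      (p + ∑ i ∈ J, s i • v i) ⬝ᵥ (p + ∑ i ∈ J, s i • v i) ≤
        (p + ∑ i ∈ J, x i • v i) ⬝ᵥ (p + ∑ i ∈ J, x i • v i) + J.card := by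
  classical
  induction J using Finset.induction_on with
  | empty =>
    intro p x _
    exact ⟨fun _ => 1, fun _ => Or.inl rfl, by simp⟩
  | insert j J hj ih =>
    intro p x hx
    obtain ⟨t, ht, hle⟩ := round_one (p + ∑ i ∈ J, x i • v i) (v j) (x j) (hx j) (hv j)
    obtain ⟨s, hs, hle2⟩ := ih (p + t • v j) x hx
    refine ⟨Function.update s j t, ?_, ?_⟩
    · intro i
      by_cases h : i = j
      · subst h; simpa using ht
      · simpa [h] using hs i
    · rw [Finset.sum_insert hj, Finset.sum_insert hj, Finset.card_insert_of_notMem hj]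
      have e1 : ∑ i ∈ J, Function.update s j t i • v i = ∑ i ∈ J, s i • v i := by
        apply Finset.sum_congr rfl
        intro i hi
        have : i ≠ j := fun h => hj (h ▸ hi)
        simp [this]
      rw [e1, Function.update_self]
      have e2 : p + (t • v j + ∑ i ∈ J, s i • v i) = p + t • v j + ∑ i ∈ J, s i • v i := by abel
      have e3 : p + (x j • v j + ∑ i ∈ J, x i • v i) = p + ∑ i ∈ J, x i • v i + x j • v j := by abel
      have e4 : p + t • v j + ∑ i ∈ J, x i • v i = p + ∑ i ∈ J, x i • v i + t • v j := by abel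
      rw [e2, e3]
      rw [e4] at hle2
      push_cast
      linarith

/-- The convex function whose minimiser selects the tile. -/
noncomputable def hf (v : Fin n → Fin d → ℝ) (c : Fin n → ℝ) (y : Fin d → ℝ) : ℝ :=
  ∑ i, |y ⬝ᵥ v i - c i|

lemma hf_continuous (v : Fin n → Fin d → ℝ) (c : Fin n → ℝ) : Continuous (hf v c) := by
  unfold hf
  apply continuous_finsetSum
  intro i _
  apply Continuous.abs
  apply Continuous.sub _ continuous_const
  exact Continuous.dotProduct continuous_id continuous_const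

/-- The evaluation map. -/
def ev (v : Fin n → Fin d → ℝ) : (Fin d → ℝ) →ₗ[ℝ] (Fin n → ℝ) where
  toFun y := fun i => y ⬝ᵥ v i
  map_add' y z := by ext i; simp [add_dotProduct]
  map_smul' r y := by ext i; simp [smul_dotProduct]

lemma exists_min (v : Fin n → Fin d → ℝ) (c : Fin n → ℝ)
    (hspan : ∀ u : Fin d → ℝ, (∀ i, u ⬝ᵥ v i = 0) → u = 0) :
    ∃ y, ∀ y', hf v c y ≤ hf v c y' := by
  have hinj : Function.Injective (ev v) := by
    rw [← LinearMap.ker_eq_bot, LinearMap.ker_eq_bot']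
    intro u hu
    apply hspan
    intro i
    exact congrFun hu i
  obtain ⟨K, hK, hanti⟩ := (ev v).exists_antilipschitzWith (LinearMap.ker_eq_bot.mpr hinj)
  have hbd : ∀ y, ‖y‖ ≤ K * ‖ev v y‖ := by
    intro y
    have := hanti.le_mul_dist y 0
    simpa [dist_eq_norm] using this
  have hKpos : (0 : ℝ) < K := by exact_mod_cast hK
  have hlow : ∀ y, (K : ℝ)⁻¹ * ‖y‖ - ∑ i, |c i| ≤ hf v c y := by
    intro y
    have h1 : ‖ev v y‖ ≤ ∑ i, |y ⬝ᵥ v i| := by
      rw [pi_norm_le_iff_of_nonneg (Finset.sum_nonneg (fun i _ => abs_nonneg _))]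
      intro i
      rw [Real.norm_eq_abs]
      exact Finset.single_le_sum (f := fun i => |y ⬝ᵥ v i|) (fun i _ => abs_nonneg _)
        (Finset.mem_univ i)
    have h2 : ∑ i, |y ⬝ᵥ v i| ≤ hf v c y + ∑ i, |c i| := by
      unfold hf
      rw [← Finset.sum_add_distrib]
      apply Finset.sum_le_sum
      intro i _
      have := abs_add_le (y ⬝ᵥ v i - c i) (c i)
      simpa using this
    have h3 : (K : ℝ)⁻¹ * ‖y‖ ≤ ‖ev v y‖ := by
      rw [inv_mul_le_iff₀ hKpos]
      exact hbd y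
    linarith
  apply Continuous.exists_forall_le (hf_continuous v c)
  apply Filter.tendsto_atTop_mono hlow
  apply Filter.tendsto_atTop_add_const_right
  apply Filter.Tendsto.const_mul_atTop (by positivity)
  exact tendsto_norm_cocompact_atTop

lemma abs_pair (a t : ℝ) (h : |t| ≤ |a|) : |a + t| + |a - t| = 2 * |a| := by
  rcases abs_cases a with ⟨h1, h2⟩ | ⟨h1, h2⟩ <;> rw [h1] at h ⊢ <;>
    obtain ⟨h3, h4⟩ := abs_le.mp h <;>
    rcases abs_cases (a + t) with ⟨h5, h6⟩ | ⟨h5, h6⟩ <;>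
    rcases abs_cases (a - t) with ⟨h7, h8⟩ | ⟨h7, h8⟩ <;> rw [h5, h7] <;> linarith

/-- The set of ties. -/
noncomputable def ties (v : Fin n → Fin d → ℝ) (c : Fin n → ℝ) (y : Fin d → ℝ) : Finset (Fin n) :=
  Finset.univ.filter (fun i => y ⬝ᵥ v i = c i)

/-- There is a minimiser at which the tie vectors span. -/
lemma exists_min_spanning (v : Fin n → Fin d → ℝ) (c : Fin n → ℝ)
    (hspan : ∀ u : Fin d → ℝ, (∀ i, u ⬝ᵥ v i = 0) → u = 0) :
    ∃ y, (∀ y', hf v c y ≤ hf v c y') ∧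
      ∀ u : Fin d → ℝ, (∀ i ∈ ties v c y, u ⬝ᵥ v i = 0) → u = 0 := by
  classical
  -- choose a minimiser with the maximal number of ties
  let S : Set ℕ := {k | ∃ y, (∀ y', hf v c y ≤ hf v c y') ∧ (ties v c y).card = k}
  have hSne : S.Nonempty := by
    obtain ⟨y, hy⟩ := exists_min v c hspan
    exact ⟨_, y, hy, rfl⟩
  have hSbdd : BddAbove S := by
    refine ⟨n, ?_⟩
    rintro k ⟨y, _, rfl⟩
    exact (Finset.card_le_univ _).trans (by simp)
  obtain ⟨y, hy, hcard⟩ := Nat.sSup_mem hSne hSbdd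
  refine ⟨y, hy, fun u hu => ?_⟩
  by_contra hne
  have : ∃ i, u ⬝ᵥ v i ≠ 0 := by
    by_contra hall
    push Not at hall
    exact hne (hspan u hall)
  obtain ⟨i0, hi0⟩ := this
  let P : Finset (Fin n) := Finset.univ.filter (fun i => u ⬝ᵥ v i ≠ 0)
  have hPne : P.Nonempty := ⟨i0, by simp [P, hi0]⟩
  obtain ⟨i, hiP, hmin⟩ := P.exists_min_image (fun i => |(c i - y ⬝ᵥ v i) / (u ⬝ᵥ v i)|) hPne
  have hui : u ⬝ᵥ v i ≠ 0 := by simpa [P] using hiP
  set s := (c i - y ⬝ᵥ v i) / (u ⬝ᵥ v i) with hs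
  have hkey : ∀ j, |s * (u ⬝ᵥ v j)| ≤ |y ⬝ᵥ v j - c j| := by
    intro j
    by_cases hj : u ⬝ᵥ v j = 0
    · rw [hj]; simp
    · have h1 := hmin j (by simp [P, hj])
      rw [abs_mul]
      have h2 : |s| ≤ |c j - y ⬝ᵥ v j| / |u ⬝ᵥ v j| := by
        rw [← abs_div]; exact h1
      have h3 : 0 < |u ⬝ᵥ v j| := abs_pos.mpr hj
      rw [le_div_iff₀ h3] at h2
      rw [abs_sub_comm] at h2
      exact h2
  have hsum : hf v c (y + s • u) + hf v c (y - s • u) = 2 * hf v c y := by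
    unfold hf
    rw [← Finset.sum_add_distrib, Finset.mul_sum]
    apply Finset.sum_congr rfl
    intro j _
    have e1 : (y + s • u) ⬝ᵥ v j - c j = (y ⬝ᵥ v j - c j) + s * (u ⬝ᵥ v j) := by
      rw [add_dotProduct, smul_dotProduct, smul_eq_mul]; ring
    have e2 : (y - s • u) ⬝ᵥ v j - c j = (y ⬝ᵥ v j - c j) - s * (u ⬝ᵥ v j) := by
      rw [sub_dotProduct, smul_dotProduct, smul_eq_mul]; ring
    rw [e1, e2]
    exact abs_pair _ _ (hkey j)
  have heq : hf v c (y + s • u) = hf v c y := by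
    have h1 := hy (y + s • u)
    have h2 := hy (y - s • u)
    linarith
  have hmem : (ties v c (y + s • u)).card ∈ S :=
    ⟨y + s • u, fun y' => by rw [heq]; exact hy y', rfl⟩
  have hle := le_csSup hSbdd hmem
  rw [← hcard] at hle
  have hit : i ∉ ties v c y := by
    intro hmem
    exact hui (hu i hmem)
  have hsub : insert i (ties v c y) ⊆ ties v c (y + s • u) := by
    intro j hj
    rcases Finset.mem_insert.mp hj with rfl | hj
    · simp only [ties, Finset.mem_filter, Finset.mem_univ, true_and]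
      rw [add_dotProduct, smul_dotProduct, smul_eq_mul, hs]
      field_simp
      ring
    · have h1 := hu j hj
      simp only [ties, Finset.mem_filter, Finset.mem_univ, true_and] at hj ⊢
      rw [add_dotProduct, smul_dotProduct, h1, hj]; simp
  have := Finset.card_le_card hsub
  rw [Finset.card_insert_of_notMem hit] at this
  omega

end Pool.Agent.H801R3.SB
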