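import Mathlib
import Pool.Agent.H801R3.SB.Convex

set_option autoImplicit false

open Matrix

namespace Pool.Agent.H801R3.SB

variable {n d : ℕ}

/-- The linear combination map. -/
def comb (v : Fin n → Fin d → ℝ) : (Fin n → ℝ) →ₗ[ℝ] (Fin d → ℝ) where
  toFun x := ∑ i, x i • v i
  map_add' x y := by simp [add_smul, Finset.sum_add_distrib]
  map_smul' r x := by simp [Finset.smul_sum, smul_smul]

lemma exists_tau (a b : Fin n → ℝ) :
    ∃ τ : ℝ, 0 < τ ∧ ∀ i, a i ≠ 0 → τ * |b i| ≤ |a i| := by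
  classical
  let t : Fin n → ℝ := fun i => if a i = 0 then 1 else |a i| / (|b i| + 1)
  have ht : ∀ i, 0 < t i := by
    intro i
    simp only [t]
    split_ifs with h
    · norm_num
    · have := abs_pos.mpr h
      have := abs_nonneg (b i)
      positivity
  have hsum : 0 ≤ ∑ i, (t i)⁻¹ := Finset.sum_nonneg (fun i _ => (inv_pos.mpr (ht i)).le)
  refine ⟨(∑ i, (t i)⁻¹ + 1)⁻¹, by positivity, fun i hi => ?_⟩
  have h1 : (t i)⁻¹ ≤ ∑ i, (t i)⁻¹ + 1 := by
    have := Finset.single_le_sum (f := fun i => (t i)⁻¹) (fun i _ => (inv_pos.mpr (ht i)).le)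
      (Finset.mem_univ i)
    linarith
  have h2 : (∑ i, (t i)⁻¹ + 1)⁻¹ ≤ t i := by
    rw [inv_le_comm₀ (by positivity) (ht i)]; exact h1
  have h3 : t i = |a i| / (|b i| + 1) := by simp [t, hi]
  have h4 : t i * |b i| ≤ |a i| := by
    rw [h3, div_mul_eq_mul_div, div_le_iff₀ (by positivity)]
    nlinarith [abs_nonneg (a i), abs_nonneg (b i)]
  calc _ ≤ t i * |b i| := mul_le_mul_of_nonneg_right h2 (abs_nonneg _)
    _ ≤ |a i| := h4

/-- Optimality conditions at a minimiser. -/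
theorem kkt (v : Fin n → Fin d → ℝ) (c : Fin n → ℝ) (y : Fin d → ℝ)
    (hy : ∀ y', hf v c y ≤ hf v c y') :
    ∃ x : Fin n → ℝ, (∀ i, |x i| ≤ 1) ∧ ∑ i, x i • v i = 0 ∧
      ∀ i, (c i < y ⬝ᵥ v i → x i = 1) ∧ (y ⬝ᵥ v i < c i → x i = -1) := by
  classical
  let lo : Fin n → ℝ := fun i => if c i < y ⬝ᵥ v i then 1 else -1
  let hi : Fin n → ℝ := fun i => if y ⬝ᵥ v i < c i then -1 else 1
  by_contra hcon
  have h0 : (0 : Fin d → ℝ) ∉ comb v '' (Set.Icc lo hi) := by
    rintro ⟨x, ⟨hx1, hx2⟩, hx0⟩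
    apply hcon
    refine ⟨x, fun i => ?_, hx0, fun i => ⟨fun h => ?_, fun h => ?_⟩⟩
    · have a1 := hx1 i
      have a2 := hx2 i
      simp only [lo, hi] at a1 a2
      rw [abs_le]
      constructor
      · split_ifs at a1 <;> linarith
      · split_ifs at a2 <;> linarith
    · have a1 := hx1 i
      have a2 := hx2 i
      simp only [lo, hi, h, if_true, if_neg (not_lt.mpr h.le)] at a1 a2
      linarith
    · have a1 := hx1 i
      have a2 := hx2 i
      simp only [lo, hi, h, if_true, if_neg (not_lt.mpr h.le)] at a1 a2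
      linarith
  have hconv : Convex ℝ (comb v '' (Set.Icc lo hi)) := (convex_Icc lo hi).linear_image (comb v)
  have hcomp : IsCompact (comb v '' (Set.Icc lo hi)) :=
    isCompact_Icc.image (LinearMap.continuous_of_finiteDimensional (comb v))
  obtain ⟨f, u, hf0, hfK⟩ := geometric_hahn_banach_point_closed hconv hcomp.isClosed h0
  rw [map_zero] at hf0
  let w : Fin d → ℝ := fun k => f (Pi.single k 1)
  have hw : ∀ z : Fin d → ℝ, f z = z ⬝ᵥ w := by
    intro z
    conv_lhs => rw [pi_eq_sum_univ' z]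
    rw [map_sum]
    simp only [map_smul, smul_eq_mul, dotProduct, w]
  let x : Fin n → ℝ := fun i => if c i < y ⬝ᵥ v i then 1 else if y ⬝ᵥ v i < c i then -1
    else if 0 ≤ w ⬝ᵥ v i then -1 else 1
  have hxmem : x ∈ Set.Icc lo hi := by
    constructor
    · intro i
      simp only [x, lo]
      split_ifs <;> norm_num
    · intro i
      simp only [x, hi]
      split_ifs <;> first | (exfalso; linarith) | norm_num
  have hpos : 0 < ∑ i, x i * (w ⬝ᵥ v i) := by
    have h1 := hfK _ ⟨x, hxmem, rfl⟩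
    rw [hw] at h1
    have h2 : comb v x ⬝ᵥ w = ∑ i, x i * (w ⬝ᵥ v i) := by
      simp only [comb, LinearMap.coe_mk, AddHom.coe_mk]
      rw [sum_dotProduct]
      apply Finset.sum_congr rfl
      intro i _
      rw [smul_dotProduct, smul_eq_mul, dotProduct_comm]
    linarith
  obtain ⟨τ, hτ, hτb⟩ := exists_tau (fun i => y ⬝ᵥ v i - c i) (fun i => w ⬝ᵥ v i)
  have hval : hf v c (y - τ • w) = hf v c y - τ * ∑ i, x i * (w ⬝ᵥ v i) := by
    unfold hf
    rw [Finset.mul_sum, ← Finset.sum_sub_distrib]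
    apply Finset.sum_congr rfl
    intro i _
    have e1 : (y - τ • w) ⬝ᵥ v i - c i = (y ⬝ᵥ v i - c i) - τ * (w ⬝ᵥ v i) := by
      rw [sub_dotProduct, smul_dotProduct, smul_eq_mul]; ring
    rw [e1]
    have hb := hτb i
    have hb2 : y ⬝ᵥ v i - c i ≠ 0 → |τ * (w ⬝ᵥ v i)| ≤ |y ⬝ᵥ v i - c i| := by
      intro h
      rw [abs_mul, abs_of_pos hτ]
      exact hb h
    by_cases h1 : c i < y ⬝ᵥ v i
    · have hx : x i = 1 := by simp [x, h1]
      have := (abs_le.mp (hb2 (by linarith))).2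
      rw [abs_of_pos (by linarith : 0 < y ⬝ᵥ v i - c i)] at this
      rw [hx, abs_of_pos (by linarith : 0 < y ⬝ᵥ v i - c i), abs_of_nonneg (by linarith)]
      ring
    · by_cases h2 : y ⬝ᵥ v i < c i
      · have hx : x i = -1 := by simp [x, h1, h2]
        have := (abs_le.mp (hb2 (by linarith))).1
        rw [abs_of_neg (by linarith : y ⬝ᵥ v i - c i < 0)] at this
        rw [hx, abs_of_neg (by linarith : y ⬝ᵥ v i - c i < 0), abs_of_nonpos (by linarith)]
        ring
      · have h3 : y ⬝ᵥ v i = c i := le_antisymm (not_lt.mp h1) (not_lt.mp h2)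
        by_cases h4 : 0 ≤ w ⬝ᵥ v i
        · have hx : x i = -1 := by simp [x, h1, h2, h4]
          rw [hx, h3]
          have : 0 ≤ τ * (w ⬝ᵥ v i) := by positivity
          simp only [sub_self, zero_sub, abs_neg, abs_zero]
          rw [abs_of_nonneg this]; ring
        · have hx : x i = 1 := by simp [x, h1, h2, h4]
          rw [hx, h3]
          push Not at h4
          have : τ * (w ⬝ᵥ v i) ≤ 0 := by nlinarith
          simp only [sub_self, zero_sub, abs_neg, abs_zero]
          rw [abs_of_nonpos this]; ring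
  have := hy (y - τ • w)
  rw [hval] at this
  nlinarith

/-- If the tie vectors span, some tuple of ties has nonzero determinant. -/
theorem exists_tuple (v : Fin n → Fin d → ℝ) (T : Finset (Fin n))
    (hT : ∀ u : Fin d → ℝ, (∀ i ∈ T, u ⬝ᵥ v i = 0) → u = 0) :
    ∃ a : Fin d → Fin n, (∀ k, a k ∈ T) ∧ (Vm v a).det ≠ 0 := by
  classical
  by_contra hcon
  push Not at hcon
  let s : Fin n → ℝ := fun i => if i ∈ T then 1 else 0
  have hdet : (Qs v s).det = 0 := by
    rw [det_Qs]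
    apply mul_eq_zero_of_right
    apply Finset.sum_eq_zero
    intro a _
    by_cases h : ∀ k, a k ∈ T
    · rw [hcon a h]; simp
    · push Not at h
      obtain ⟨k, hk⟩ := h
      have : ∏ k, s (a k) = 0 := Finset.prod_eq_zero (Finset.mem_univ k) (by simp [s, hk])
      rw [this]; simp
  obtain ⟨u, hu, hQu⟩ := Matrix.exists_mulVec_eq_zero_iff.mpr hdet
  apply hu
  apply hT
  have h1 : u ⬝ᵥ (Qs v s *ᵥ u) = ∑ i, s i * (u ⬝ᵥ v i) ^ 2 := by
    simp only [Qs, dotProduct, mulVec, Matrix.of_apply, sq, Finset.mul_sum, Finset.sum_mul]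
    rw [Finset.sum_comm]
    conv_lhs =>
      enter [2, l]
      rw [Finset.sum_comm]
    rw [Finset.sum_comm]
    apply Finset.sum_congr rfl
    intro i _
    apply Finset.sum_congr rfl
    intro k _
    apply Finset.sum_congr rfl
    intro l _
    ring
  rw [hQu, dotProduct_zero] at h1
  have h2 := (Finset.sum_eq_zero_iff_of_nonneg (fun i _ => by
    have : 0 ≤ s i := by simp only [s]; split_ifs <;> norm_num
    positivity)).mp h1.symm
  intro i hi
  have h3 := h2 i (Finset.mem_univ i)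
  have h4 : s i = 1 := by simp [s, hi]
  rw [h4, one_mul] at h3
  exact pow_eq_zero_iff (two_ne_zero) |>.mp h3

/-- The selection theorem: for every threshold vector there is a vertex with a balanced sign
pattern. -/
theorem selection (v : Fin n → Fin d → ℝ) (c : Fin n → ℝ)
    (hspan : ∀ u : Fin d → ℝ, (∀ i, u ⬝ᵥ v i = 0) → u = 0) :
    ∃ (y : Fin d → ℝ) (a : Fin d → Fin n) (x : Fin n → ℝ), (Vm v a).det ≠ 0 ∧
      (∀ k, y ⬝ᵥ v (a k) = c (a k)) ∧ (∀ i, |x i| ≤ 1) ∧ ∑ i, x i • v i = 0 ∧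
      ∀ i, (c i < y ⬝ᵥ v i → x i = 1) ∧ (y ⬝ᵥ v i < c i → x i = -1) := by
  obtain ⟨y, hy, hsp⟩ := exists_min_spanning v c hspan
  obtain ⟨a, ha, hdet⟩ := exists_tuple v _ hsp
  obtain ⟨x, hx1, hx2, hx3⟩ := kkt v c y hy
  exact ⟨y, a, x, hdet, fun k => by simpa [ties] using ha k, hx1, hx2, hx3⟩

end Pool.Agent.H801R3.SB
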