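import Mathlib
import Pool.Agent.H801R3.SB.Kkt
import Pool.Agent.H801R3.SB.Weight

set_option autoImplicit false

open MeasureTheory Filter Topology Matrix
open scoped ENNReal

namespace Pool.Agent.H801R3.SB

variable {n d : ℕ}

/-- sign of a Boolean -/
def sg (b : Bool) : ℝ := if b then 1 else -1

lemma sg_cases (b : Bool) : sg b = 1 ∨ sg b = -1 := by
  cases b <;> simp [sg]

open Classical in
/-- sign patterns with short sum -/
noncomputable def good (v : Fin n → Fin d → ℝ) : Finset (Fin n → Bool) :=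
  Finset.univ.filter (fun ε => (∑ i, sg (ε i) • v i) ⬝ᵥ (∑ i, sg (ε i) • v i) ≤ d)

open Classical in
/-- sign patterns (off the tuple) which can be balanced on the tuple -/
noncomputable def Sa (v : Fin n → Fin d → ℝ) (a : Fin d → Fin n) : Finset (Fin n → Bool) :=
  Finset.univ.filter (fun η => (∀ k, η (a k) = true) ∧ ∃ x : Fin n → ℝ, (∀ i, |x i| ≤ 1) ∧
    (∀ i : Off a, x i = sg (η i)) ∧ ∑ i, x i • v i = 0)

lemma exists_eps (v : Fin n → Fin d → ℝ) (hv : ∀ i, v i ⬝ᵥ v i ≤ 1) (a : Fin d → Fin n)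
    (η : Fin n → Bool) (hη : η ∈ Sa v a) :
    ∃ ε ∈ good v, ∀ i : Off a, ε i = η i := by
  classical
  simp only [Sa, Finset.mem_filter, Finset.mem_univ, true_and] at hη
  obtain ⟨_, x, hx, hxη, hx0⟩ := hη
  let J : Finset (Fin n) := Finset.univ.image a
  have hJ : J.card ≤ d := by
    have := Finset.card_image_le (s := (Finset.univ : Finset (Fin d))) (f := a)
    simpa using this
  obtain ⟨s, hs, hle⟩ := rounding v hv J (∑ i ∈ Jᶜ, x i • v i) x hx
  have hp : ∑ i ∈ Jᶜ, x i • v i + ∑ i ∈ J, x i • v i = 0 := by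
    rw [add_comm, Finset.sum_add_sum_compl, hx0]
  rw [hp, dotProduct_zero, zero_add] at hle
  refine ⟨fun i => if i ∈ J then decide (s i = 1) else η i, ?_, ?_⟩
  · simp only [good, Finset.mem_filter, Finset.mem_univ, true_and]
    have e : ∑ i, sg (if i ∈ J then decide (s i = 1) else η i) • v i =
        ∑ i ∈ Jᶜ, x i • v i + ∑ i ∈ J, s i • v i := by
      rw [add_comm, ← Finset.sum_add_sum_compl J]
      congr 1
      · apply Finset.sum_congr rfl
        intro i hi
        rw [if_pos hi]
        rcases hs i with h | h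
        · simp [sg, h]
        · have : ¬ ((-1 : ℝ) = 1) := by norm_num
          simp [sg, h, this]
      · apply Finset.sum_congr rfl
        intro i hi
        rw [Finset.mem_compl] at hi
        rw [if_neg hi]
        have : ¬ ∃ k, a k = i := by
          rintro ⟨k, rfl⟩
          exact hi (Finset.mem_image_of_mem a (Finset.mem_univ k))
        rw [hxη ⟨i, this⟩]
    rw [e]
    have : (J.card : ℝ) ≤ d := by exact_mod_cast hJ
    linarith
  · rintro ⟨i, hi⟩
    have : i ∉ J := by
      intro h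
      obtain ⟨k, _, hk⟩ := Finset.mem_image.mp h
      exact hi ⟨k, hk⟩
    simp [this]

lemma card_Sa_le (v : Fin n → Fin d → ℝ) (hv : ∀ i, v i ⬝ᵥ v i ≤ 1) (a : Fin d → Fin n) :
    (Sa v a).card ≤ (good v).card := by
  classical
  choose f hf1 hf2 using fun (η : {η // η ∈ Sa v a}) => exists_eps v hv a η.1 η.2
  have hinj : Function.Injective f := by
    intro η η' h
    apply Subtype.ext
    funext i
    by_cases hi : ∃ k, a k = i
    · obtain ⟨k, rfl⟩ := hi
      have h1 : η.1 (a k) = true := by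
        have := η.2
        simp only [Sa, Finset.mem_filter, Finset.mem_univ, true_and] at this
        exact this.1 k
      have h2 : η'.1 (a k) = true := by
        have := η'.2
        simp only [Sa, Finset.mem_filter, Finset.mem_univ, true_and] at this
        exact this.1 k
      rw [h1, h2]
    · rw [← hf2 η ⟨i, hi⟩, ← hf2 η' ⟨i, hi⟩, h]
  have h1 : (Sa v a).card = Fintype.card {η // η ∈ Sa v a} := by simp
  rw [h1, ← Finset.card_univ]
  exact Finset.card_le_card_of_injOn f (fun η _ => hf1 η) (fun _ _ _ _ h => hinj h)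

/-- The linear functional whose kernel is the set of extra ties. -/
noncomputable def ell (v : Fin n → Fin d → ℝ) (a : Fin d → Fin n) (i : Fin n) :
    (Fin n → ℝ) →ₗ[ℝ] ℝ where
  toFun c := sol v a (fun k => c (a k)) ⬝ᵥ v i - c i
  map_add' c c' := by
    have : (fun k => (c + c') (a k)) = (fun k => c (a k)) + (fun k => c' (a k)) := rfl
    rw [this]
    unfold sol
    rw [mulVec_add, add_dotProduct]
    simp only [Pi.add_apply]; ring
  map_smul' r c := by
    have : (fun k => (r • c) (a k)) = r • (fun k => c (a k)) := rfl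
    rw [this]
    unfold sol
    rw [mulVec_smul, smul_dotProduct]
    simp only [Pi.smul_apply, smul_eq_mul, RingHom.id_apply]; ring

lemma generic_one (v : Fin n → Fin d → ℝ) (a : Fin d → Fin n) (i : Off a) :
    ∀ᵐ c : Fin n → ℝ, sol v a (fun k => c (a k)) ⬝ᵥ v i ≠ c i := by
  classical
  have hne : LinearMap.ker (ell v a i) ≠ ⊤ := by
    intro h
    have h1 : (Pi.single (i : Fin n) (1 : ℝ) : Fin n → ℝ) ∈ LinearMap.ker (ell v a i) := by
      rw [h]; trivial
    rw [LinearMap.mem_ker] at h1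
    have h2 : (fun k => (Pi.single (i : Fin n) (1 : ℝ) : Fin n → ℝ) (a k)) = 0 := by
      funext k
      have : a k ≠ i := fun h => i.2 ⟨k, h⟩
      simp [this]
    have h3 : ell v a i (Pi.single (i : Fin n) (1 : ℝ)) = -1 := by
      change sol v a (fun k => (Pi.single (i : Fin n) (1 : ℝ) : Fin n → ℝ) (a k)) ⬝ᵥ v i -
        (Pi.single (i : Fin n) (1 : ℝ) : Fin n → ℝ) i = -1
      rw [h2]
      unfold sol
      simp
    rw [h3] at h1
    norm_num at h1
  have h := Measure.addHaar_submodule (volume : Measure (Fin n → ℝ)) (LinearMap.ker (ell v a i)) hne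
  rw [ae_iff]
  convert h using 2
  ext c
  simp only [ne_eq, not_not, Set.mem_ofPred_eq, SetLike.mem_coe, LinearMap.mem_ker]
  change _ ↔ sol v a (fun k => c (a k)) ⬝ᵥ v i - c i = 0
  exact sub_eq_zero.symm

lemma generic (v : Fin n → Fin d → ℝ) :
    ∀ᵐ c : Fin n → ℝ, ∀ a : Fin d → Fin n, ∀ i : Off a,
      sol v a (fun k => c (a k)) ⬝ᵥ v i ≠ c i := by
  rw [ae_all_iff]
  intro a
  rw [ae_all_iff]
  intro i
  exact generic_one v a i

lemma sol_eq (v : Fin n → Fin d → ℝ) (a : Fin d → Fin n) (ha : (Vm v a).det ≠ 0)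
    (y : Fin d → ℝ) (c : Fin n → ℝ) (h : ∀ k, y ⬝ᵥ v (a k) = c (a k)) :
    sol v a (fun k => c (a k)) = y := by
  have : (fun k => c (a k)) = Vm v a *ᵥ y := by
    funext k
    rw [mulVec_Vm, h]
  rw [this, sol_mulVec v a ha]

lemma integ_eq (v : Fin n → Fin d → ℝ) (a : Fin d → Fin n) (ha : Function.Injective a)
    (η c : Fin n → ℝ)
    (h : ∀ i : Off a, 0 < η i * (sol v a (fun k => c (a k)) ⬝ᵥ v i - c i)) :
    integ v a η c = ∏ i, lf (c i) := by
  unfold integ
  rw [prod_split a ha]
  congr 1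
  apply Finset.prod_congr rfl
  intro i _
  unfold hh
  rw [if_pos (h i)]

lemma det_perm (v : Fin n → Fin d → ℝ) (a : Fin d → Fin n) (τ : Equiv.Perm (Fin d))
    (h : (Vm v a).det ≠ 0) : (Vm v (a ∘ τ)).det ≠ 0 := by
  have : Vm v (a ∘ τ) = (Vm v a).submatrix τ id := rfl
  rw [this, Matrix.det_permute]
  apply mul_ne_zero _ h
  rcases Int.units_eq_one_or (Equiv.Perm.sign τ) with h1 | h1 <;> rw [h1] <;> simp

open Classical in
/-- The pointwise counting inequality. -/
lemma pointwise_count (v : Fin n → Fin d → ℝ)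
    (hspan : ∀ u : Fin d → ℝ, (∀ i, u ⬝ᵥ v i = 0) → u = 0) (c : Fin n → ℝ)
    (hc : ∀ a : Fin d → Fin n, ∀ i : Off a, sol v a (fun k => c (a k)) ⬝ᵥ v i ≠ c i) :
    (d.factorial : ℝ≥0∞) * ∏ i, lf (c i) ≤
      ∑ a ∈ Finset.univ.filter (fun a : Fin d → Fin n => (Vm v a).det ≠ 0),
        ∑ η ∈ Sa v a, integ v a (fun i => sg (η i)) c := by
  obtain ⟨y, a0, x, hdet, hy, hx1, hx0, hxs⟩ := selection v c hspan
  have hinj := injective_of_det v a0 hdet
  let η0 : Fin n → Bool := fun i => if ∃ k, a0 k = i then true else decide (c i < y ⬝ᵥ v i)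
  have hsolτ : ∀ τ : Equiv.Perm (Fin d), sol v (a0 ∘ τ) (fun k => c ((a0 ∘ τ) k)) = y := by
    intro τ
    exact sol_eq v (a0 ∘ τ) (det_perm v a0 τ hdet) y c (fun k => hy (τ k))
  have hsol0 : sol v a0 (fun k => c (a0 k)) = y := sol_eq v a0 hdet y c hy
  have hoff : ∀ τ : Equiv.Perm (Fin d), ∀ i : Fin n, (¬ ∃ k, (a0 ∘ τ) k = i) ↔ ¬ ∃ k, a0 k = i := by
    intro τ i
    constructor
    · rintro h ⟨k, hk⟩
      exact h ⟨τ.symm k, by simp [hk]⟩
    · rintro h ⟨k, hk⟩
      exact h ⟨τ k, hk⟩
  have hsgn : ∀ i : Fin n, (¬ ∃ k, a0 k = i) → x i = sg (η0 i) ∧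
      0 < sg (η0 i) * (y ⬝ᵥ v i - c i) := by
    intro i hi
    have hne : y ⬝ᵥ v i ≠ c i := by
      have := hc a0 ⟨i, hi⟩
      rw [hsol0] at this
      exact this
    by_cases h : c i < y ⬝ᵥ v i
    · have e : η0 i = true := by simp only [η0]; rw [if_neg hi]; simp [h]
      rw [e]
      refine ⟨by rw [(hxs i).1 h]; rfl, ?_⟩
      simp only [sg, if_true]
      linarith
    · have e : η0 i = false := by simp only [η0]; rw [if_neg hi]; simp [h]
      have h' : y ⬝ᵥ v i < c i := lt_of_le_of_ne (not_lt.mp h) hne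
      rw [e]
      refine ⟨by rw [(hxs i).2 h']; simp [sg], ?_⟩
      simp only [sg]
      norm_num
      linarith
  have hmem : ∀ τ : Equiv.Perm (Fin d), η0 ∈ Sa v (a0 ∘ τ) := by
    intro τ
    simp only [Sa, Finset.mem_filter, Finset.mem_univ, true_and]
    refine ⟨fun k => ?_, x, hx1, fun i => ?_, hx0⟩
    · simp only [η0]
      rw [if_pos ⟨τ k, rfl⟩]
    · exact (hsgn i ((hoff τ i).mp i.2)).1
  have hinteg : ∀ τ : Equiv.Perm (Fin d),
      integ v (a0 ∘ τ) (fun i => sg (η0 i)) c = ∏ i, lf (c i) := by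
    intro τ
    apply integ_eq v _ (hinj.comp τ.injective)
    intro i
    rw [hsolτ τ]
    exact (hsgn i ((hoff τ i).mp i.2)).2
  have hinj2 : Function.Injective (fun τ : Equiv.Perm (Fin d) => a0 ∘ τ) := by
    intro τ τ' h
    ext k
    have := congrFun h k
    simp only [Function.comp_apply] at this
    rw [hinj this]
  calc (d.factorial : ℝ≥0∞) * ∏ i, lf (c i)
      = ∑ τ : Equiv.Perm (Fin d), integ v (a0 ∘ τ) (fun i => sg (η0 i)) c := by
        rw [Finset.sum_congr rfl (fun τ _ => hinteg τ), Finset.sum_const, Finset.card_univ,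
          Fintype.card_perm, Fintype.card_fin, nsmul_eq_mul]
    _ ≤ ∑ τ : Equiv.Perm (Fin d), ∑ η ∈ Sa v (a0 ∘ τ), integ v (a0 ∘ τ) (fun i => sg (η i)) c := by
        apply Finset.sum_le_sum
        intro τ _
        exact Finset.single_le_sum (f := fun η : Fin n → Bool =>
          integ v (a0 ∘ τ) (fun i => sg (η i)) c) (fun _ _ => bot_le) (hmem τ)
    _ = ∑ a ∈ Finset.univ.image (fun τ : Equiv.Perm (Fin d) => a0 ∘ τ),
          ∑ η ∈ Sa v a, integ v a (fun i => sg (η i)) c := by
        rw [Finset.sum_image (fun τ _ τ' _ h => hinj2 h)]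
    _ ≤ _ := by
        apply Finset.sum_le_sum_of_subset
        intro a ha
        obtain ⟨τ, _, rfl⟩ := Finset.mem_image.mp ha
        simp only [Finset.mem_filter, Finset.mem_univ, true_and]
        exact det_perm v a0 τ hdet

/-- The counting inequality after integration. -/
theorem count_bound (v : Fin n → Fin d → ℝ) (hv : ∀ i, v i ⬝ᵥ v i ≤ 1)
    (hspan : ∀ u : Fin d → ℝ, (∀ i, u ⬝ᵥ v i = 0) → u = 0) :
    (d.factorial : ℝ≥0∞) ≤ (good v).card * (ENNReal.ofReal (2 ^ d * (1 / 2) ^ n) *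
      ((∑ a : Fin d → Fin n, ENNReal.ofReal |(Vm v a).det|) *
        ∫⁻ y : Fin d → ℝ, ∏ i, ENNReal.ofReal (1 / Real.cosh (y ⬝ᵥ v i)))) := by
  classical
  set I : ℝ≥0∞ := ∫⁻ y : Fin d → ℝ, ∏ i, ENNReal.ofReal (1 / Real.cosh (y ⬝ᵥ v i)) with hI
  set K : ℝ≥0∞ := ENNReal.ofReal (2 ^ d * (1 / 2) ^ n) with hK
  have hW : ∫⁻ c : Fin n → ℝ, ∏ i, lf (c i) = 1 := by
    rw [lintegral_fintype_prod (fun _ => lf) (fun _ => measurable_lf)]
    simp [lf_total]
  have hWm : Measurable (fun c : Fin n → ℝ => ∏ i, lf (c i)) :=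
    Finset.measurable_prod _ (fun i _ => measurable_lf.comp (measurable_pi_apply i))
  calc (d.factorial : ℝ≥0∞) = ∫⁻ c : Fin n → ℝ, (d.factorial : ℝ≥0∞) * ∏ i, lf (c i) := by
        rw [lintegral_const_mul _ hWm, hW, mul_one]
    _ ≤ ∫⁻ c : Fin n → ℝ, ∑ a ∈ Finset.univ.filter (fun a : Fin d → Fin n => (Vm v a).det ≠ 0),
        ∑ η ∈ Sa v a, integ v a (fun i => sg (η i)) c := by
        apply lintegral_mono_ae
        filter_upwards [generic v] with c hc
        exact pointwise_count v hspan c hc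
    _ = ∑ a ∈ Finset.univ.filter (fun a : Fin d → Fin n => (Vm v a).det ≠ 0),
        ∑ η ∈ Sa v a, ∫⁻ c, integ v a (fun i => sg (η i)) c := by
        rw [lintegral_finsetSum]
        · apply Finset.sum_congr rfl
          intro a _
          rw [lintegral_finsetSum]
          intro η _
          exact measurable_integ v a _
        · intro a _
          apply Finset.measurable_sum
          intro η _
          exact measurable_integ v a _
    _ ≤ ∑ a ∈ Finset.univ.filter (fun a : Fin d → Fin n => (Vm v a).det ≠ 0),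
        ∑ η ∈ Sa v a, ENNReal.ofReal |(Vm v a).det| * (K * I) := by
        apply Finset.sum_le_sum
        intro a ha
        rw [Finset.mem_filter] at ha
        apply Finset.sum_le_sum
        intro η hη
        simp only [Sa, Finset.mem_filter, Finset.mem_univ, true_and] at hη
        obtain ⟨_, x, hx, hxη, hx0⟩ := hη
        have h1 : integ v a (fun i => sg (η i)) = integ v a x := by
          funext c
          unfold integ
          congr 1
          apply Finset.prod_congr rfl
          intro i _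
          rw [hxη i]
        rw [h1]
        exact weight_bound v a ha.2 x hx hx0 (fun i => by rw [hxη i]; exact sg_cases _)
    _ ≤ ∑ a ∈ Finset.univ.filter (fun a : Fin d → Fin n => (Vm v a).det ≠ 0),
        (good v).card * (ENNReal.ofReal |(Vm v a).det| * (K * I)) := by
        apply Finset.sum_le_sum
        intro a _
        rw [Finset.sum_const, nsmul_eq_mul]
        have h2 : ((Sa v a).card : ℝ≥0∞) ≤ (good v).card := by
          exact_mod_cast card_Sa_le v hv a
        exact mul_le_mul' h2 le_rfl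
    _ ≤ ∑ a : Fin d → Fin n, (good v).card * (ENNReal.ofReal |(Vm v a).det| * (K * I)) :=
        Finset.sum_le_sum_of_subset (Finset.filter_subset _ _)
    _ = _ := by
        rw [← Finset.mul_sum, ← Finset.sum_mul]
        ring

end Pool.Agent.H801R3.SB
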