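import Mathlib
import Pool.Agent.H801R3.SB.Count
import Pool.Agent.H801R3.SB.Bound

set_option autoImplicit false

open MeasureTheory Filter Topology Matrix
open scoped ENNReal

namespace Pool.Agent.H801R3.SB

variable {n d : ℕ}

theorem lower_span (v : Fin n → Fin d → ℝ) (hv : ∀ i, v i ⬝ᵥ v i ≤ 1) (hn : 0 < n)
    (hspan : ∀ u, (∀ i, u ⬝ᵥ v i = 0) → u = 0) :
    (2:ℝ)^n * √(d.factorial : ℝ) ≤ ((good v).card : ℝ) * (8^d * √(n:ℝ)^d) := by
  have h1 := count_bound v hv hspan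
  have h2 := det_bound v hn hspan
  have h3 : (d.factorial : ℝ≥0∞) ≤ ((good v).card : ℝ≥0∞) * (ENNReal.ofReal (2^d*(1/2)^n) *
      ENNReal.ofReal (√(5*Real.pi)^d * √(d.factorial : ℝ) * √(n:ℝ)^d)) := by
    refine h1.trans ?_
    gcongr
  have hfac : (0:ℝ) < (d.factorial : ℝ) := by exact_mod_cast d.factorial_pos
  have h4 : (d.factorial : ℝ) ≤ ((good v).card : ℝ) * ((2^d*(1/2)^n) *
      (√(5*Real.pi)^d * √(d.factorial : ℝ) * √(n:ℝ)^d)) := by
    rw [← ENNReal.ofReal_mul (by positivity)] at h3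
    have e1 : (d.factorial : ℝ≥0∞) = ENNReal.ofReal (d.factorial : ℝ) := by
      rw [ENNReal.ofReal_natCast]
    have e2 : ((good v).card : ℝ≥0∞) = ENNReal.ofReal ((good v).card : ℝ) := by
      rw [ENNReal.ofReal_natCast]
    rw [e1, e2, ← ENNReal.ofReal_mul (by positivity)] at h3
    exact (ENNReal.ofReal_le_ofReal_iff (by positivity)).mp h3
  have hs : (0:ℝ) < √(d.factorial : ℝ) := Real.sqrt_pos.mpr hfac
  have hss : √(d.factorial : ℝ) * √(d.factorial : ℝ) = d.factorial := Real.mul_self_sqrt hfac.le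
  have h5 : √(5*Real.pi) ≤ 4 := by
    rw [show (4:ℝ) = √(16) by
      rw [show (16:ℝ) = 4^2 by norm_num]; exact (Real.sqrt_sq (by norm_num)).symm]
    apply Real.sqrt_le_sqrt
    have := Real.pi_lt_d2
    linarith
  have h6 : √(d.factorial : ℝ) ≤ ((good v).card : ℝ) * ((2^d*(1/2)^n) *
      (√(5*Real.pi)^d * √(n:ℝ)^d)) := by
    have : √(d.factorial : ℝ) * √(d.factorial : ℝ) ≤ (((good v).card : ℝ) * ((2^d*(1/2)^n) *
      (√(5*Real.pi)^d * √(n:ℝ)^d))) * √(d.factorial : ℝ) := by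
      rw [hss]
      refine h4.trans (le_of_eq (by ring))
    exact le_of_mul_le_mul_right this hs
  have h7 : √(5*Real.pi)^d ≤ 4^d := pow_le_pow_left₀ (Real.sqrt_nonneg _) h5 d
  calc (2:ℝ)^n * √(d.factorial : ℝ) ≤ 2^n * (((good v).card : ℝ) * ((2^d*(1/2)^n) *
      (√(5*Real.pi)^d * √(n:ℝ)^d))) := by gcongr
    _ ≤ 2^n * (((good v).card : ℝ) * ((2^d*(1/2)^n) * (4^d * √(n:ℝ)^d))) := by gcongr
    _ = ((good v).card : ℝ) * (8^d * √(n:ℝ)^d) := by
      have e : (2:ℝ)^n * (1/2)^n = 1 := by rw [← mul_pow]; norm_num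
      have e8 : (8:ℝ)^d = 2^d * 4^d := by rw [← mul_pow]; norm_num
      rw [e8]
      calc (2:ℝ)^n * (((good v).card : ℝ) * ((2^d*(1/2)^n) * (4^d * √(n:ℝ)^d)))
          = (2^n * (1/2)^n) * (((good v).card : ℝ) * (2^d * 4^d * √(n:ℝ)^d)) := by ring
        _ = _ := by rw [e, one_mul]

/-- the perturbed configuration -/
noncomputable def pert (v : Fin n → Fin d → ℝ) (w : Fin n → Fin d → ℝ) (t : ℝ) :
    Fin n → Fin d → ℝ := fun i => (1 - t) • v i + t • w i

lemma pert_norm (v w : Fin n → Fin d → ℝ) (hv : ∀ i, v i ⬝ᵥ v i ≤ 1)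
    (hw : ∀ i, w i ⬝ᵥ w i ≤ 1) (t : ℝ) (h0 : 0 ≤ t) (h1 : t ≤ 1) (i : Fin n) :
    pert v w t i ⬝ᵥ pert v w t i ≤ 1 := by
  have e : pert v w t i ⬝ᵥ pert v w t i = (1-t)^2 * (v i ⬝ᵥ v i) + 2*t*(1-t)*(v i ⬝ᵥ w i) +
      t^2 * (w i ⬝ᵥ w i) := by
    simp only [pert, add_dotProduct, dotProduct_add, smul_dotProduct, dotProduct_smul, smul_eq_mul]
    rw [dotProduct_comm (w i) (v i)]
    ring
  have h : v i ⬝ᵥ w i ≤ 1 := by
    have : 0 ≤ (v i - w i) ⬝ᵥ (v i - w i) := Finset.sum_nonneg (fun _ _ => mul_self_nonneg _)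
    simp only [sub_dotProduct, dotProduct_sub] at this
    rw [dotProduct_comm (w i) (v i)] at this
    have := hv i
    have := hw i
    linarith
  rw [e]
  have a1 := hv i
  have a2 := hw i
  have b1 : 0 ≤ (1-t)^2 := by positivity
  have b2 : 0 ≤ 2*t*(1-t) := by
    have : 0 ≤ 1 - t := by linarith
    positivity
  have b3 : 0 ≤ t^2 := by positivity
  nlinarith [mul_le_mul_of_nonneg_left a1 b1, mul_le_mul_of_nonneg_left h b2,
    mul_le_mul_of_nonneg_left a2 b3]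



/-- the standard basis vectors, taken cyclically -/
noncomputable def cyc (n : ℕ) (hd : 0 < d) : Fin n → Fin d → ℝ :=
  fun i => Pi.single ⟨i.val % d, Nat.mod_lt _ hd⟩ 1

lemma cyc_norm (hd : 0 < d) (i : Fin n) : cyc n hd i ⬝ᵥ cyc n hd i = 1 := by
  simp [cyc]

lemma det_pert_poly (v w : Fin n → Fin d → ℝ) (a : Fin d → Fin n) :
    ∃ P : Polynomial ℝ, ∀ t : ℝ, P.eval t = (Vm (pert v w t) a).det := by
  refine ⟨Matrix.det (Matrix.of (fun k j : Fin d => (1 - Polynomial.X) * Polynomial.C (v (a k) j) +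
    Polynomial.X * Polynomial.C (w (a k) j))), fun t => ?_⟩
  rw [← Polynomial.coe_evalRingHom, RingHom.map_det]
  congr 1
  ext k j
  simp [Vm, pert]
  ring

lemma span_of_det (v : Fin n → Fin d → ℝ) (a : Fin d → Fin n) (h : (Vm v a).det ≠ 0) :
    ∀ u, (∀ i, u ⬝ᵥ v i = 0) → u = 0 := by
  intro u hu
  apply Matrix.eq_zero_of_mulVec_eq_zero h
  ext k
  have := hu (a k)
  rw [dotProduct_comm] at this
  simpa [Vm, Matrix.mulVec] using this

lemma good_pert (v w : Fin n → Fin d → ℝ) :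
    ∀ᶠ t in 𝓝 (0:ℝ), good (pert v w t) ⊆ good v := by
  classical
  have key : ∀ ε : Fin n → Bool, ∀ᶠ t in 𝓝 (0:ℝ), ε ∈ good (pert v w t) → ε ∈ good v := by
    intro ε
    by_cases h : ε ∈ good v
    · exact Filter.Eventually.of_forall (fun _ _ => h)
    · have hc : Continuous (fun t : ℝ => (∑ i, sg (ε i) • pert v w t i) ⬝ᵥ
          (∑ i, sg (ε i) • pert v w t i)) := by
        simp only [dotProduct, Finset.sum_apply, Pi.smul_apply, pert, Pi.add_apply]
        fun_prop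
      have h0 : (d:ℝ) < (∑ i, sg (ε i) • pert v w 0 i) ⬝ᵥ (∑ i, sg (ε i) • pert v w 0 i) := by
        have e : pert v w 0 = v := by
          ext i j; simp [pert]
        rw [e]
        simpa [good] using h
      have := (hc.tendsto 0).eventually (lt_mem_nhds h0)
      filter_upwards [this] with t ht hmem
      exfalso
      have : (∑ i, sg (ε i) • pert v w t i) ⬝ᵥ (∑ i, sg (ε i) • pert v w t i) ≤ d := by
        simpa [good] using hmem
      linarith
  have := Filter.eventually_all.mpr key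
  filter_upwards [this] with t ht ε hε
  exact ht ε hε

theorem lower (v : Fin n → Fin d → ℝ) (hv : ∀ i, v i ⬝ᵥ v i ≤ 1) (hd : 0 < d) (hn : d ≤ n) :
    (2:ℝ)^n * √(d.factorial : ℝ) ≤ ((good v).card : ℝ) * (8^d * √(n:ℝ)^d) := by
  classical
  let a : Fin d → Fin n := Fin.castLE hn
  obtain ⟨P, hP⟩ := det_pert_poly v (cyc n hd) a
  have hP1 : P.eval 1 = 1 := by
    rw [hP]
    have : Vm (pert v (cyc n hd) 1) a = 1 := by
      ext k j
      have e : (⟨(a k).val % d, Nat.mod_lt _ hd⟩ : Fin d) = k := by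
        ext
        simp [a, Nat.mod_eq_of_lt k.isLt]
      simp only [Vm, pert, Matrix.of_apply, sub_self, zero_smul, zero_add, one_smul, cyc]
      rw [e, Matrix.one_apply, Pi.single_apply]
      simp [eq_comm]
    rw [this, Matrix.det_one]
  have hP0 : P ≠ 0 := by
    rintro rfl
    simp at hP1
  have hfin : (P.roots.toFinset : Set ℝ).Finite := Finset.finite_toSet _
  have h1 : ∀ᶠ t in 𝓝[>] (0:ℝ), t ∉ (P.roots.toFinset : Set ℝ) := by
    have h := hfin.isClosed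
    have : ∀ᶠ t in 𝓝[≠] (0:ℝ), t ∉ (P.roots.toFinset : Set ℝ) := by
      have := (hfin.subset (Set.sdiff_subset : (P.roots.toFinset : Set ℝ) \ {0} ⊆ _)).isClosed
      have hm : ((P.roots.toFinset : Set ℝ) \ {0})ᶜ ∈ 𝓝 (0:ℝ) := by
        apply this.isOpen_compl.mem_nhds
        simp
      have hm' := mem_nhdsWithin_of_mem_nhds (a := (0:ℝ)) (t := {(0:ℝ)}ᶜ) hm
      filter_upwards [hm', self_mem_nhdsWithin] with t ht ht0 hmem
      exact ht ⟨hmem, ht0⟩
    exact this.filter_mono (nhdsWithin_mono _ (fun x hx => ne_of_gt hx))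
  have h2 : ∀ᶠ t in 𝓝[>] (0:ℝ), good (pert v (cyc n hd) t) ⊆ good v :=
    (good_pert v (cyc n hd)).filter_mono nhdsWithin_le_nhds
  have h3 : ∀ᶠ t in 𝓝[>] (0:ℝ), t < 1 :=
    mem_nhdsWithin_of_mem_nhds (Iio_mem_nhds one_pos)
  obtain ⟨t, ht1, ht2, ht3, ht4⟩ := (h1.and (h2.and (h3.and self_mem_nhdsWithin))).exists
  have ht4' : (0:ℝ) < t := ht4
  have hdet : (Vm (pert v (cyc n hd) t) a).det ≠ 0 := by
    rw [← hP t]
    intro h
    apply ht1
    simp [hP0, h]
  have hspan := span_of_det _ a hdet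
  have hnorm := pert_norm v (cyc n hd) hv (fun i => (cyc_norm hd i).le) t ht4'.le ht3.le
  have hmain := lower_span _ hnorm (lt_of_lt_of_le hd hn) hspan
  refine hmain.trans ?_
  gcongr

end Pool.Agent.H801R3.SB
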