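import Mathlib
import Pool.Agent.H801R3.SB.Lower

set_option autoImplicit false

open Filter Topology Matrix

namespace Pool.Agent.H801R3.SB

variable {n d : ℕ}

/-- integer sign -/
def zg (b : Bool) : ℤ := if b then 1 else -1

lemma sg_eq_zg (b : Bool) : sg b = ((zg b : ℤ) : ℝ) := by
  cases b <;> simp [sg, zg]

/-- geometric weight -/
noncomputable def wt (s : ℤ) : ℝ := (1/2)^s.natAbs

lemma wt_nonneg (s : ℤ) : 0 ≤ wt s := by unfold wt; positivity

/-- the equivalence between sign patterns and finite subsets -/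
def boolEquiv (ι : Type*) [Fintype ι] [DecidableEq ι] : (ι → Bool) ≃ Finset ι where
  toFun η := Finset.univ.filter (fun i => η i = true)
  invFun s := fun i => decide (i ∈ s)
  left_inv η := by ext i; simp
  right_inv s := by ext i; simp

lemma sum_zg {ι : Type*} [Fintype ι] [DecidableEq ι] (η : ι → Bool) :
    ∑ i, zg (η i) = 2 * ((boolEquiv ι η).card : ℤ) - Fintype.card ι := by
  have h : ∀ i, zg (η i) = 2 * (if η i = true then 1 else 0) - 1 := by
    intro i
    cases η i <;> simp [zg]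
  simp only [h]
  rw [Finset.sum_sub_distrib, ← Finset.mul_sum]
  simp [boolEquiv]

lemma sum_wt {ι : Type*} [Fintype ι] [DecidableEq ι] :
    ∑ η : ι → Bool, wt (∑ i, zg (η i)) =
      ∑ k ∈ Finset.range (Fintype.card ι + 1), ((Fintype.card ι).choose k : ℝ) *
        wt (2 * (k:ℤ) - Fintype.card ι) := by
  classical
  have h1 : ∑ η : ι → Bool, wt (∑ i, zg (η i)) =
      ∑ s : Finset ι, wt (2 * (s.card : ℤ) - Fintype.card ι) := by
    refine Fintype.sum_equiv (boolEquiv ι) _ _ (fun η => ?_)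
    rw [sum_zg]
  rw [h1, ← Finset.powerset_univ,
    Finset.sum_powerset_apply_card (fun k => wt (2 * (k : ℤ) - Fintype.card ι))]
  simp [nsmul_eq_mul]

lemma geo_sum (m : ℕ) : ∑ k ∈ Finset.range (m+1), wt (2 * (k:ℤ) - m) ≤
    5/3 - (2/3) * (1/2)^m := by
  induction m using Nat.twoStepInduction with
  | zero => simp [wt]; norm_num
  | one => simp [wt, Finset.sum_range_succ]; norm_num
  | more m ih _ =>
    rw [Finset.sum_range_succ, Finset.sum_range_succ']
    have e1 : ∀ k : ℕ, wt (2 * ((k+1 : ℕ):ℤ) - ((m+2 : ℕ) : ℤ)) = wt (2 * (k:ℤ) - m) := by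
      intro k
      congr 1
      push_cast
      ring
    have e2 : wt (2 * ((m + 1 + 1 : ℕ) : ℤ) - ((m+2:ℕ):ℤ)) = (1/2)^(m+2) := by
      unfold wt
      congr 1
      omega
    have e3 : wt (2 * ((0 : ℕ) : ℤ) - ((m+2:ℕ):ℤ)) = (1/2)^(m+2) := by
      have : (2 * ((0 : ℕ) : ℤ) - ((m+2:ℕ):ℤ)).natAbs = m + 2 := by omega
      rw [wt, this]
    rw [e2, e3]
    simp only [e1]
    have : (1/2 : ℝ)^(m+2) = (1/4) * (1/2)^m := by rw [pow_add]; norm_num; ring
    rw [this]
    linarith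

lemma central (k : ℕ) : (Nat.centralBinom k : ℝ)^2 * (2*k+1) ≤ 16^k := by
  induction k with
  | zero => simp
  | succ k ih =>
    have h := Nat.succ_mul_centralBinom_succ k
    have h' : ((k:ℝ)+1) * (Nat.centralBinom (k+1) : ℝ) = 2*(2*k+1) * (Nat.centralBinom k : ℝ) := by
      exact_mod_cast h
    have hk : (0:ℝ) < (k:ℝ)+1 := by positivity
    have h2 : (Nat.centralBinom (k+1) : ℝ) = 2*(2*k+1) * (Nat.centralBinom k : ℝ) / (k+1) := by
      field_simp
      linarith
    rw [h2, div_pow, pow_succ (16:ℝ) k]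
    push_cast
    rw [div_mul_eq_mul_div, div_le_iff₀ (by positivity)]
    have e : (2*(2*(k:ℝ)+1) * (Nat.centralBinom k : ℝ))^2 * (2*((k:ℝ)+1)+1) =
        ((Nat.centralBinom k : ℝ)^2 * (2*k+1)) * (4*(2*k+1)*(2*k+3)) := by ring
    rw [e]
    calc ((Nat.centralBinom k : ℝ)^2 * (2*k+1)) * (4*(2*k+1)*(2*k+3))
        ≤ 16^k * (4*(2*k+1)*(2*k+3)) := by gcongr
      _ ≤ 16^k * (16 * ((k:ℝ)+1)^2) := by
        apply mul_le_mul_of_nonneg_left _ (by positivity)
        nlinarith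
      _ = _ := by ring

lemma middle (m : ℕ) : (m.choose (m/2) : ℝ) * √((m:ℝ)+1) ≤ 2^m := by
  have key : (m.choose (m/2) : ℝ)^2 * ((m:ℝ)+1) ≤ 4^m := by
    rcases Nat.even_or_odd' m with ⟨k, rfl | rfl⟩
    · have h := central k
      rw [Nat.mul_div_cancel_left k (by norm_num)]
      rw [Nat.centralBinom] at h
      have : (4:ℝ)^(2*k) = 16^k := by rw [pow_mul]; norm_num
      rw [this]
      push_cast
      exact h
    · have h := central (k+1)
      have e : (2*k+1)/2 = k := by omega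
      rw [e]
      have h2 : (Nat.centralBinom (k+1)) = 2 * (2*k+1).choose k := by
        rw [Nat.centralBinom, show 2*(k+1) = (2*k+1)+1 by ring, Nat.choose_succ_succ,
          two_mul ((2*k+1).choose k)]
        congr 1
        exact Nat.choose_symm_half k
      rw [h2] at h
      push_cast at h
      have : (4:ℝ)^(2*k+1) = 16^k * 4 := by rw [pow_succ, pow_mul]; norm_num
      rw [this]
      have e16 : (16:ℝ)^(k+1) = 16^k * 16 := pow_succ _ _
      rw [e16] at h
      push_cast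
      have hc : (0:ℝ) ≤ ((2*k+1).choose k : ℝ)^2 := by positivity
      nlinarith
  have h1 : ((m.choose (m/2) : ℝ) * √((m:ℝ)+1))^2 ≤ (2^m)^2 := by
    rw [mul_pow, Real.sq_sqrt (by positivity), ← pow_mul, mul_comm m 2, pow_mul]
    norm_num
    exact key
  exact le_of_sq_le_sq h1 (by positivity)



lemma class_bound {ι : Type*} [Fintype ι] [DecidableEq ι] :
    (∑ η : ι → Bool, wt (∑ i, zg (η i))) * √((Fintype.card ι : ℝ)+1) ≤
      5/3 * 2^(Fintype.card ι) := by
  rw [sum_wt]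
  set m := Fintype.card ι
  have h1 : ∑ k ∈ Finset.range (m+1), (m.choose k : ℝ) * wt (2 * (k:ℤ) - m) ≤
      (m.choose (m/2) : ℝ) * (5/3) := by
    calc ∑ k ∈ Finset.range (m+1), (m.choose k : ℝ) * wt (2 * (k:ℤ) - m)
        ≤ ∑ k ∈ Finset.range (m+1), (m.choose (m/2) : ℝ) * wt (2 * (k:ℤ) - m) := by
          apply Finset.sum_le_sum
          intro k _
          apply mul_le_mul_of_nonneg_right _ (wt_nonneg _)
          exact_mod_cast Nat.choose_le_middle k m
      _ = (m.choose (m/2) : ℝ) * ∑ k ∈ Finset.range (m+1), wt (2 * (k:ℤ) - m) := by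
          rw [Finset.mul_sum]
      _ ≤ (m.choose (m/2) : ℝ) * (5/3) := by
          apply mul_le_mul_of_nonneg_left _ (by positivity)
          have := geo_sum m
          have h2 : (0:ℝ) ≤ (2/3) * (1/2)^m := by positivity
          linarith
  calc (∑ k ∈ Finset.range (m+1), (m.choose k : ℝ) * wt (2 * (k:ℤ) - m)) * √((m : ℝ)+1)
      ≤ ((m.choose (m/2) : ℝ) * (5/3)) * √((m : ℝ)+1) := by gcongr
    _ = 5/3 * ((m.choose (m/2) : ℝ) * √((m : ℝ)+1)) := by ring
    _ ≤ 5/3 * 2^m := by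
      have := middle m
      gcongr

/-- the colour classes -/
abbrev Cls (n : ℕ) (hd : 0 < d) (j : Fin d) : Type :=
  {i : Fin n // (⟨i.val % d, Nat.mod_lt _ hd⟩ : Fin d) = j}

/-- splitting a sign pattern by classes -/
def clsEquiv (n : ℕ) (hd : 0 < d) : (Fin n → Bool) ≃ ((j : Fin d) → Cls n hd j → Bool) where
  toFun ε := fun _ i => ε i.1
  invFun f := fun i => f _ ⟨i, rfl⟩
  left_inv ε := rfl
  right_inv f := by
    ext j ⟨i, hi⟩
    subst hi
    rfl

lemma sum_cyc (hd : 0 < d) (ε : Fin n → Bool) (j : Fin d) :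
    (∑ i, sg (ε i) • cyc n hd i) j = ((∑ i : Cls n hd j, zg (ε i.1) : ℤ) : ℝ) := by
  classical
  rw [Finset.sum_apply]
  simp only [Pi.smul_apply, cyc, smul_eq_mul, Pi.single_apply, mul_ite, mul_one, mul_zero]
  rw [← Finset.sum_filter]
  push_cast
  rw [Finset.sum_subtype (p := fun i : Fin n => (⟨i.val % d, Nat.mod_lt _ hd⟩ : Fin d) = j)
    (Finset.univ.filter (fun i : Fin n => j = (⟨i.val % d, Nat.mod_lt _ hd⟩ : Fin d)))
    (fun x => by simp [eq_comm])]
  apply Finset.sum_congr rfl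
  intro x _
  rw [sg_eq_zg]

lemma good_weight (hd : 0 < d) (ε : Fin n → Bool) (h : ε ∈ good (cyc n hd)) :
    1 ≤ 2^d * ∏ j, wt (∑ i : Cls n hd j, zg (ε i.1)) := by
  have h1 : (∑ i, sg (ε i) • cyc n hd i) ⬝ᵥ (∑ i, sg (ε i) • cyc n hd i) ≤ d := by
    simpa [good] using h
  have h2 : ∑ j, (∑ i : Cls n hd j, zg (ε i.1)).natAbs ≤ d := by
    have e : (∑ i, sg (ε i) • cyc n hd i) ⬝ᵥ (∑ i, sg (ε i) • cyc n hd i) =
        ((∑ j, (∑ i : Cls n hd j, zg (ε i.1)) * (∑ i : Cls n hd j, zg (ε i.1)) : ℤ) : ℝ) := by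
      rw [dotProduct]
      simp only [sum_cyc]
      push_cast
      rfl
    rw [e] at h1
    have h3 : ∑ j, (∑ i : Cls n hd j, zg (ε i.1)) * (∑ i : Cls n hd j, zg (ε i.1)) ≤ (d:ℤ) := by
      exact_mod_cast h1
    have h4 : ((∑ j, (∑ i : Cls n hd j, zg (ε i.1)).natAbs : ℕ) : ℤ) ≤ d := by
      refine le_trans ?_ h3
      push_cast
      apply Finset.sum_le_sum
      intro j _
      generalize (∑ i : Cls n hd j, zg (ε i.1)) = z
      rcases eq_or_ne z 0 with rfl | hz
      · simp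
      · have h5 : 1 ≤ |z| := Int.one_le_abs hz
        have h6 : z * z = |z| * |z| := (abs_mul_abs_self z).symm
        rw [h6]
        nlinarith
    exact_mod_cast h4
  unfold wt
  rw [Finset.prod_pow_eq_pow_sum]
  calc (1:ℝ) = 2^d * (1/2)^d := by rw [← mul_pow]; norm_num
    _ ≤ 2^d * (1/2)^(∑ j, (∑ i : Cls n hd j, zg (ε i.1)).natAbs) := by
      apply mul_le_mul_of_nonneg_left _ (by positivity)
      exact pow_le_pow_of_le_one (by norm_num) (by norm_num) h2

lemma card_cls (hd : 0 < d) (j : Fin d) : n / d ≤ Fintype.card (Cls n hd j) := by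
  have : Function.Injective (fun k : Fin (n/d) => (⟨⟨k.val * d + j.val, by
      have h1 := k.isLt
      have h2 := j.isLt
      calc k.val * d + j.val < k.val * d + d := by omega
        _ = (k.val + 1) * d := by ring
        _ ≤ (n/d) * d := Nat.mul_le_mul_right _ h1
        _ ≤ n := Nat.div_mul_le_self n d⟩, by
      ext
      simp only
      rw [Nat.mul_add_mod', Nat.mod_eq_of_lt j.isLt]⟩ : Cls n hd j)) := by
    intro a b hab
    simp only [Subtype.mk.injEq, Fin.mk.injEq] at hab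
    ext
    have : a.val * d = b.val * d := by omega
    exact Nat.eq_of_mul_eq_mul_right hd this
  simpa using Fintype.card_le_of_injective _ this



lemma sum_prod_cls (hd : 0 < d) :
    ∑ ε : Fin n → Bool, ∏ j, wt (∑ i : Cls n hd j, zg (ε i.1)) =
      ∏ j, ∑ η : Cls n hd j → Bool, wt (∑ i, zg (η i)) := by
  classical
  rw [Finset.prod_univ_sum, Fintype.piFinset_univ]
  refine Fintype.sum_equiv (clsEquiv n hd) _ _ (fun ε => ?_)
  rfl

lemma card_cls_sum (hd : 0 < d) : ∑ j, Fintype.card (Cls n hd j) = n := by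
  classical
  have := Fintype.card_congr (Equiv.sigmaFiberEquiv
    (fun i : Fin n => (⟨i.val % d, Nat.mod_lt _ hd⟩ : Fin d)))
  rw [Fintype.card_sigma, Fintype.card_fin] at this
  exact this

/-- weight of a sign pattern -/
noncomputable def gw (hd : 0 < d) (ε : Fin n → Bool) : ℝ :=
  ∏ j : Fin d, wt (∑ i : Cls n hd j, zg (ε i.1))

lemma gw_nonneg (hd : 0 < d) (ε : Fin n → Bool) : 0 ≤ gw hd ε :=
  Finset.prod_nonneg (fun _ _ => wt_nonneg _)

/-- total weight of a class -/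
noncomputable def cw (n : ℕ) (hd : 0 < d) (j : Fin d) : ℝ :=
  ∑ η : Cls n hd j → Bool, wt (∑ i, zg (η i))

lemma cw_nonneg (hd : 0 < d) (j : Fin d) : 0 ≤ cw n hd j :=
  Finset.sum_nonneg (fun _ _ => wt_nonneg _)

lemma card_good_le (hd : 0 < d) :
    ((good (cyc n hd)).card : ℝ) ≤ 2^d * ∏ j, cw n hd j := by
  have h0 : ∏ j, cw n hd j = ∑ ε : Fin n → Bool, gw hd ε := (sum_prod_cls hd).symm
  have h2 : ((good (cyc n hd)).card : ℝ) = ∑ ε ∈ good (cyc n hd), (1:ℝ) := by
    rw [Finset.sum_const, nsmul_eq_mul, mul_one]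
  have h3 : ∑ ε ∈ good (cyc n hd), (1:ℝ) ≤ ∑ ε ∈ good (cyc n hd), 2^d * gw hd ε :=
    Finset.sum_le_sum (fun ε hε => good_weight hd ε hε)
  have h4 : ∑ ε ∈ good (cyc n hd), 2^d * gw hd ε ≤ ∑ ε : Fin n → Bool, 2^d * gw hd ε := by
    apply Finset.sum_le_sum_of_subset_of_nonneg (Finset.subset_univ _)
    intro ε _ _
    exact mul_nonneg (by positivity) (gw_nonneg hd ε)
  rw [h0, Finset.mul_sum, h2]
  exact h3.trans h4

lemma cw_le (hd : 0 < d) (j : Fin d) : cw n hd j * √(n:ℝ) ≤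
      (5/3 * √(d:ℝ)) * 2^(Fintype.card (Cls n hd j)) := by
  have hc : cw n hd j * √((Fintype.card (Cls n hd j) : ℝ)+1) ≤
      5/3 * 2^(Fintype.card (Cls n hd j)) := class_bound (ι := Cls n hd j)
  have hn : (n:ℝ) ≤ d * ((Fintype.card (Cls n hd j) : ℝ) + 1) := by
    have h3 := card_cls (n := n) hd j
    have h4 : n < d * (n/d + 1) := Nat.lt_mul_div_succ n hd
    have h5 : n ≤ d * (Fintype.card (Cls n hd j) + 1) :=
      h4.le.trans (Nat.mul_le_mul_left _ (by omega))
    exact_mod_cast h5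
  have hs : √(n:ℝ) ≤ √(d:ℝ) * √((Fintype.card (Cls n hd j) : ℝ) + 1) := by
    rw [← Real.sqrt_mul (by positivity)]
    exact Real.sqrt_le_sqrt hn
  have hw := cw_nonneg (n := n) hd j
  calc cw n hd j * √(n:ℝ)
      ≤ cw n hd j * (√(d:ℝ) * √((Fintype.card (Cls n hd j) : ℝ) + 1)) := by gcongr
    _ = √(d:ℝ) * (cw n hd j * √((Fintype.card (Cls n hd j) : ℝ) + 1)) := by ring
    _ ≤ √(d:ℝ) * (5/3 * 2^(Fintype.card (Cls n hd j))) := by gcongr
    _ = _ := by ring

/-- upper bound for the cyclic configuration -/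
theorem upper (hd : 0 < d) :
    ((good (cyc n hd)).card : ℝ) * √(n:ℝ)^d ≤ 2^n * (10/3 * √(d:ℝ))^d := by
  have h1 := card_good_le (n := n) hd
  have h2 := fun j => cw_le (n := n) hd j
  calc ((good (cyc n hd)).card : ℝ) * √(n:ℝ)^d
      ≤ (2^d * ∏ j, cw n hd j) * √(n:ℝ)^d := by gcongr
    _ = 2^d * ∏ j : Fin d, (cw n hd j * √(n:ℝ)) := by
      rw [Finset.prod_mul_distrib, Finset.prod_const, Finset.card_univ, Fintype.card_fin]
      ring
    _ ≤ 2^d * ∏ j : Fin d, ((5/3 * √(d:ℝ)) * 2^(Fintype.card (Cls n hd j))) := by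
      apply mul_le_mul_of_nonneg_left _ (by positivity)
      apply Finset.prod_le_prod
      · intro j _
        exact mul_nonneg (cw_nonneg hd j) (Real.sqrt_nonneg _)
      · intro j _
        exact h2 j
    _ = 2^n * (10/3 * √(d:ℝ))^d := by
      rw [Finset.prod_mul_distrib, Finset.prod_const, Finset.card_univ, Fintype.card_fin,
        Finset.prod_pow_eq_pow_sum, card_cls_sum]
      have : (10/3 * √(d:ℝ))^d = 2^d * (5/3 * √(d:ℝ))^d := by
        rw [← mul_pow]; congr 1; ring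
      rw [this]; ring

/-- comparison of `d^(d/2)` with `√(d!)` -/
lemma sqrt_pow_le (d : ℕ) : √(d:ℝ)^d ≤ √(Real.exp 1)^d * √(d.factorial : ℝ) := by
  have h := Real.pow_div_factorial_le_exp (d:ℝ) (by positivity) d
  have hfac : (0:ℝ) < (d.factorial : ℝ) := by exact_mod_cast d.factorial_pos
  rw [div_le_iff₀ hfac] at h
  have h1 : √(d:ℝ)^d = √((d:ℝ)^d) := by
    rw [Real.sqrt_eq_rpow, Real.sqrt_eq_rpow, ← Real.rpow_natCast, ← Real.rpow_mul (by positivity),
      ← Real.rpow_natCast, ← Real.rpow_mul (by positivity)]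
    congr 1
    ring
  have h2 : √(Real.exp 1)^d = √(Real.exp d) := by
    rw [Real.sqrt_eq_rpow, Real.sqrt_eq_rpow, ← Real.rpow_natCast, ← Real.exp_mul, ← Real.exp_mul,
      ← Real.exp_mul]
    congr 1
    ring
  rw [h1, h2, ← Real.sqrt_mul (by positivity)]
  exact Real.sqrt_le_sqrt h

end Pool.Agent.H801R3.SB
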